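import Pool.Agent.Helper30.U.Defs2
import Pool.Agent.Helper25.SH.Induct

/-!
# MP_506470_co : strong amalgamation classes with bounded cliques
-/

namespace SetHom
namespace Un

/-- Finite subsets of infinite graphs reduce to finite graphs. -/
theorem SAC.of_fin {P : ∀ α : Type, SimpleGraph α → Set α → Prop} (hP : SAC P) {α : Type}
    {A : SimpleGraph α} {T : Set α} (h : P T (A.induce T) Set.univ) : P α A T := by
  classical
  by_cases hne : T.Nonempty
  · obtain ⟨t0, ht0⟩ := hne
    refine hP.comap _ _ _ _ _ _ (fun x => if hx : x ∈ T then ⟨x, hx⟩ else ⟨t0, ht0⟩) h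
      (fun _ _ => trivial) ?_ ?_
    · intro x hx y hy e
      simp only [hx, hy, dif_pos, Subtype.mk.injEq] at e
      exact e
    · intro x hx y hy
      simp [hx, hy]
  · rw [Set.not_nonempty_iff_eq_empty] at hne
    subst hne
    exact hP.comap _ _ _ _ _ _ (fun _ => ()) hP.pt (fun _ _ => trivial)
      (fun x hx => absurd hx (Set.notMem_empty x)) (fun x hx => absurd hx (Set.notMem_empty x))

theorem sh_of_hom {W : Type} {Y : SimpleGraph W} (h : Homogeneous Y) : SetHomogeneous Y := by
  rintro U U' ⟨f⟩
  obtain ⟨φ, hφ⟩ := h U U' f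
  refine ⟨φ, ?_⟩
  ext y
  constructor
  · rintro ⟨x, hx, rfl⟩
    have := hφ ⟨x, hx⟩
    rw [this]
    exact (f ⟨x, hx⟩).2
  · intro hy
    refine ⟨f.symm ⟨y, hy⟩, (f.symm ⟨y, hy⟩).2, ?_⟩
    rw [hφ]
    simp

/-- Graphs without large cliques embed into a graph with the extension property. -/
theorem emb_of_ext {W : Type} {Y : SimpleGraph W} {s : ℕ} (hE : EXT s Y Set.univ) {α : Type}
    (H : SimpleGraph α) (w0 : W) : ∀ T : Finset α, CF H (T : Set α) s →
      ∃ f : α → W, Set.InjOn f T ∧ ∀ x ∈ T, ∀ y ∈ T, (Y.Adj (f x) (f y) ↔ H.Adj x y) := by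
  classical
  intro T
  induction T using Finset.induction_on with
  | empty =>
    intro _
    exact ⟨fun _ => w0, by simp, by simp⟩
  | insert x T hx ih =>
    intro hT
    obtain ⟨f, hf, hadj⟩ := ih (hT.mono (by simp) le_rfl)
    obtain ⟨c, -, hcB, hcA, hcB'⟩ := hE ((T.filter (fun y => H.Adj x y)).image f)
      ((T.filter (fun y => ¬ H.Adj x y)).image f) (Set.subset_univ _) (Set.subset_univ _)
      (by
        rw [Finset.disjoint_left]
        intro z hz hz'
        obtain ⟨y, hy, rfl⟩ := Finset.mem_image.1 hz
        obtain ⟨y', hy', e⟩ := Finset.mem_image.1 hz'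
        rw [Finset.mem_filter] at hy hy'
        have := hf hy'.1 hy.1 e
        subst this
        exact hy'.2 hy.2)
      (by
        intro t htA ht
        -- the preimage of the clique
        let Q : Finset α := T.filter (fun y => f y ∈ t)
        have hQt : Q.image f = t := by
          ext z
          constructor
          · intro hz
            obtain ⟨y, hy, rfl⟩ := Finset.mem_image.1 hz
            exact (Finset.mem_filter.1 hy).2
          · intro hz
            have hz2 := htA hz
            simp only [Finset.coe_image, Finset.coe_filter, Set.mem_image, Set.mem_ofPred_eq]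
              at hz2
            obtain ⟨y, ⟨hy, -⟩, rfl⟩ := hz2
            exact Finset.mem_image_of_mem _ (Finset.mem_filter.2 ⟨hy, hz⟩)
        have hQadj : ∀ y ∈ Q, H.Adj x y := by
          intro y hy
          obtain ⟨hyT, hyt⟩ := Finset.mem_filter.1 hy
          have hz2 := htA hyt
          simp only [Finset.coe_image, Finset.coe_filter, Set.mem_image, Set.mem_ofPred_eq]
            at hz2
          obtain ⟨y', ⟨hy', hxy'⟩, e⟩ := hz2
          rw [← hf hy' hyT e]
          exact hxy'
        have hxQ : x ∉ Q := fun h => hx (Finset.mem_filter.1 h).1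
        have hcard : Q.card = s := by
          have h1 : (Q.image f).card = Q.card := Finset.card_image_of_injOn
            (hf.mono (fun y hy => (Finset.mem_filter.1 hy).1))
          rw [← h1, hQt]
          exact ht.2
        have := hT (insert x Q) (by
          intro y hy z hz hyz
          rcases Finset.mem_insert.1 hy with h1 | h1 <;> rcases Finset.mem_insert.1 hz with h2 | h2
          · exact absurd (h1.trans h2.symm) hyz
          · rw [h1]
            exact hQadj z h2
          · rw [h2]
            exact (hQadj y h1).symm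
          · have h3 := (Finset.mem_filter.1 h1)
            have h4 := (Finset.mem_filter.1 h2)
            exact (hadj y h3.1 z h4.1).1 (ht.1 h3.2 h4.2 (fun e => hyz (hf h3.1 h4.1 e))))
          (by
            intro y hy
            rcases Finset.mem_insert.1 hy with h1 | h1
            · rw [h1]
              simp
            · simp [(Finset.mem_filter.1 h1).1])
        rw [Finset.card_insert_of_notMem hxQ, hcard] at this
        omega)
    have hcf : ∀ y ∈ T, f y ≠ c := by
      intro y hy e
      by_cases hxy : H.Adj x y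
      · have := hcA (f y) (Finset.mem_image_of_mem _ (Finset.mem_filter.2 ⟨hy, hxy⟩))
        rw [e] at this
        exact Y.irrefl this
      · exact hcB (e ▸ Finset.mem_image_of_mem _ (Finset.mem_filter.2 ⟨hy, hxy⟩))
    have hcadj : ∀ y ∈ T, (Y.Adj c (f y) ↔ H.Adj x y) := by
      intro y hy
      by_cases hxy : H.Adj x y
      · exact iff_of_true (hcA (f y) (Finset.mem_image_of_mem _ (Finset.mem_filter.2 ⟨hy, hxy⟩)))
          hxy
      · exact iff_of_false
          (hcB' (f y) (Finset.mem_image_of_mem _ (Finset.mem_filter.2 ⟨hy, hxy⟩))) hxy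
    refine ⟨Function.update f x c, ?_, ?_⟩
    · have hup : ∀ y ∈ T, Function.update f x c y = f y := by
        intro y hy
        rw [Function.update_of_ne]
        rintro rfl
        exact hx hy
      intro y hy z hz e
      rw [Finset.coe_insert] at hy hz
      rcases hy with h1 | h1 <;> rcases hz with h2 | h2
      · exact h1.trans h2.symm
      · rw [h1, Function.update_self, hup z h2] at e
        exact absurd e.symm (hcf z h2)
      · rw [h2, Function.update_self, hup y h1] at e
        exact absurd e (hcf y h1)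
      · rw [hup y h1, hup z h2] at e
        exact hf h1 h2 e
    · have hup : ∀ y ∈ T, Function.update f x c y = f y := by
        intro y hy
        rw [Function.update_of_ne]
        rintro rfl
        exact hx hy
      intro y hy z hz
      rcases Finset.mem_insert.1 hy with h1 | h1 <;> rcases Finset.mem_insert.1 hz with h2 | h2
      · rw [h1, h2]
        simp
      · rw [h1, Function.update_self, hup z h2]
        exact hcadj z h2
      · rw [h2, Function.update_self, hup y h1, Y.adj_comm, H.adj_comm]
        exact hcadj y h1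
      · rw [hup y h1, hup z h2]
        exact hadj y h1 z h2

/-- A homogeneous graph is not of ray type. -/
theorem not_ray_of_hom {W : Type} {Y : SimpleGraph W} (hY : Homogeneous Y)
    (hR : RayOn Y Set.univ) : False := by
  classical
  obtain ⟨a, -, b, -, c, -, d, -, hab, hcd, hac, had, hbc, hbd⟩ := hR.two
  have hne : a ≠ c := by
    rintro rfl
    exact hbc hab.symm
  obtain ⟨e, -, hm⟩ := hR.beyond a trivial c trivial hne hac
  -- exchange the middle `a` and `e`
  have hind : ∀ x ∈ ({e, a, c} : Finset W), ∀ y ∈ ({e, a, c} : Finset W), ¬ Y.Adj x y := by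
    intro x hx y hy
    simp only [Finset.mem_insert, Finset.mem_singleton] at hx hy
    rcases hx with rfl | rfl | rfl <;> rcases hy with rfl | rfl | rfl
    · exact Y.irrefl
    · exact hm.nab
    · exact hm.nac
    · exact fun h => hm.nab h.symm
    · exact Y.irrefl
    · exact hm.nbc
    · exact fun h => hm.nac h.symm
    · exact fun h => hm.nbc h.symm
    · exact Y.irrefl
  have hsw : ∀ x, x ∈ ((({e, a, c} : Finset W) : Set W)) ↔
      Equiv.swap e a x ∈ ((({e, a, c} : Finset W) : Set W)) := by
    intro x
    by_cases hxe : x = e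
    · subst hxe
      simp
    · by_cases hxa : x = a
      · subst hxa
        simp
      · rw [Equiv.swap_apply_of_ne_of_ne hxe hxa]
  let f : Y.induce ((({e, a, c} : Finset W) : Set W)) ≃g
      Y.induce ((({e, a, c} : Finset W) : Set W)) :=
    { toEquiv := (Equiv.swap e a).subtypeEquiv hsw
      map_rel_iff' := by
        intro x y
        exact iff_of_false (hind _ ((hsw x.1).1 x.2) _ ((hsw y.1).1 y.2)) (hind _ x.2 _ y.2) }
  obtain ⟨φ, hφ⟩ := hY _ _ f
  have h1 : φ e = a := by
    have := hφ ⟨e, by simp⟩
    rw [this]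
    simp [f]
  have h2 : φ a = e := by
    have := hφ ⟨a, by simp⟩
    rw [this]
    simp [f]
  have h3 : φ c = c := by
    have := hφ ⟨c, by simp⟩
    rw [this]
    simp only [f]
    show Equiv.swap e a c = c
    rw [Equiv.swap_apply_of_ne_of_ne hm.ac.symm hm.bc.symm]
  have h4 := hm.map (H := Y) φ φ.injective (fun x y => φ.map_adj_iff)
  rw [h1, h2, h3] at h4
  have h5 : φ '' Set.univ = Set.univ := by
    rw [Set.image_univ]
    exact φ.surjective.range_eq
  rw [h5] at h4
  exact hm.not_swap h4

theorem sac_free_of {P : ∀ α : Type, SimpleGraph α → Set α → Prop} (h : SAC P)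
    (hlim : ∃ Y : SimpleGraph ℕ, Homogeneous Y ∧ ∀ (α : Type) [Finite α] (A : SimpleGraph α),
      P α A Set.univ ↔ Nonempty (A ↪g Y)) (h3 : InP3 P)
    (h3' : InCP3 P) {s : ℕ} (hs : InCl P s) (hs' : ¬ InCl P (s + 1)) :
    ∀ (α : Type) [Finite α] (H : SimpleGraph α) (T : Set α), CF H T s → P α H T := by
  classical
  obtain ⟨Y, hY, hage⟩ := hlim
  have hsh := sh_of_hom hY
  have hK : Y.CliqueFree (s + 1) := by
    intro t ht
    apply hs'
    intro α A T hT hc hcl
    have hfT : Finite T := hT
    refine h.of_fin ((hage T (A.induce T)).2 ?_)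
    have : Fintype T := Fintype.ofFinite T
    obtain ⟨e⟩ : Nonempty (T ↪ t) := by
      refine Function.Embedding.nonempty_of_card_le ?_
      rw [Fintype.card_coe, ht.2, ← Nat.card_eq_fintype_card]
      exact hc
    refine ⟨⟨⟨fun x => (e x).1, fun x y hxy => e.injective (Subtype.ext hxy)⟩, ?_⟩⟩
    intro x y
    by_cases hxy : x = y
    · subst hxy
      simp
    · exact iff_of_true (ht.1 (e x).2 (e y).2 (fun h => hxy (e.injective (Subtype.ext h))))
        (hcl x.1 x.2 y.1 y.2 (fun h => hxy (Subtype.ext h)))
  have hnK : ¬ Y.CliqueFree s := by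
    intro hf
    obtain ⟨e⟩ := (hage (Fin s) ⊤).1 (hs (Fin s) ⊤ Set.univ (Set.toFinite _)
      (by rw [Set.ncard_univ]; simp) (fun x _ y _ hxy => hxy))
    refine hf (Finset.univ.map e.toEmbedding) ⟨?_, by simp⟩
    intro x hx y hy hxy
    obtain ⟨i, -, rfl⟩ := Finset.mem_map.1 hx
    obtain ⟨j, -, rfl⟩ := Finset.mem_map.1 hy
    exact e.map_adj_iff.2 (fun h => hxy (by rw [h]))
  have key : P3F Y Set.univ ∨ CMP Y Set.univ ∨ EXT s Y Set.univ ∨ (s = 2 ∧ RayOn Y Set.univ) :=
    fc_induct s Y inferInstance (hh_of_sh s hsh) hK hnK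
  rcases key with h5 | h5 | h5 | ⟨-, h5⟩
  · exfalso
    let A : SimpleGraph (Fin 3) := SimpleGraph.fromEdgeSet {s(1, 0), s(1, 2)}
    have h10 : A.Adj 1 0 := by simp [A]
    have h12 : A.Adj 1 2 := by simp [A]
    have h02 : ¬ A.Adj 0 2 := by simp [A]
    have hu : ({1, 0, 2} : Set (Fin 3)) = Set.univ := by
      ext x
      fin_cases x <;> simp
    have := h3 (Fin 3) A 1 0 2 h10 h12 (by decide) h02
    rw [hu] at this
    obtain ⟨e⟩ := (hage (Fin 3) A).1 this
    exact h02 (e.map_adj_iff.1 (h5 (e 0) trivial (e 1) trivial (e 2) trivial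
      (e.map_adj_iff.2 h10.symm) (e.map_adj_iff.2 h12)
      (fun h => absurd (e.injective h) (by decide))))
  · exfalso
    let A : SimpleGraph (Fin 3) := SimpleGraph.fromEdgeSet {s(0, 1)}
    have h01 : A.Adj 0 1 := by simp [A]
    have h20 : ¬ A.Adj 2 0 := by simp [A]
    have h21 : ¬ A.Adj 2 1 := by simp [A]
    have hu : ({2, 0, 1} : Set (Fin 3)) = Set.univ := by
      ext x
      fin_cases x <;> simp
    have := h3' (Fin 3) A 2 0 1 h01 (by decide) (by decide) h20 h21
    rw [hu] at this
    obtain ⟨e⟩ := (hage (Fin 3) A).1 this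
    exact h5 (e 0) trivial (e 2) trivial (e 1) trivial
      (fun h => h20 (e.map_adj_iff.1 h).symm) (fun h => h21 (e.map_adj_iff.1 h))
      (e.map_adj_iff.2 h01)
  · intro α _ H T hT
    have hfT : Finite T := Set.toFinite T
    refine h.of_fin ((hage T (H.induce T)).2 ?_)
    obtain ⟨f, hf, hadj⟩ := emb_of_ext h5 H 0 (Set.toFinite T).toFinset (by simpa using hT)
    refine ⟨⟨⟨fun x => f x.1, fun x y hxy => Subtype.ext (hf (by simp) (by simp) hxy)⟩, ?_⟩⟩
    intro x y
    exact hadj x.1 (by simp) y.1 (by simp)
  · exact absurd h5 (fun h => not_ray_of_hom hY h)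

end Un
end SetHom
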