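import Pool.Agent.Helper30.U.Defs

/-!
# MP_506470_co : doubly infinite case, configurations used in the gadget arguments
-/

namespace SetHom
namespace Un

variable {V : Type} {G : SimpleGraph V}

/-- Every clique of `H` inside `T` has at most `s` elements. -/
def CF {α : Type} (H : SimpleGraph α) (T : Set α) (s : ℕ) : Prop :=
  ∀ Q : Finset α, Clq H Q → (∀ x ∈ Q, x ∈ T) → Q.card ≤ s

section CF
variable {α : Type} {H : SimpleGraph α}

theorem CF.mono {T T' : Set α} {s s' : ℕ} (h : CF H T s) (hT : T' ⊆ T) (hs : s ≤ s') :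
    CF H T' s' := fun Q hQ hQT => (h Q hQ (fun x hx => hT (hQT x hx))).trans hs

/-- No edges between the two parts. -/
theorem CF.union {A B : Set α} {s : ℕ} (hA : CF H A s) (hB : CF H B s)
    (h : ∀ x ∈ A, ∀ y ∈ B, x ≠ y → ¬ H.Adj x y) : CF H (A ∪ B) s := by
  intro Q hQ hQT
  by_cases h1 : ∀ x ∈ Q, x ∈ A
  · exact hA Q hQ h1
  · push Not at h1
    obtain ⟨y, hy, hyA⟩ := h1
    have hyB : y ∈ B := (hQT y hy).resolve_left hyA
    refine hB Q hQ (fun x hx => ?_)
    rcases hQT x hx with hxA | hxB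
    · by_cases hxy : x = y
      · rw [hxy]
        exact hyB
      · exact absurd (hQ x hx y hy hxy) (h x hxA y hyB hxy)
    · exact hxB

theorem CF.insert {A : Set α} {s : ℕ} (hA : CF H A s) (v : α) : CF H (insert v A) (s + 1) := by
  classical
  intro Q hQ hQT
  have h1 : (Q.erase v).card ≤ s := by
    refine hA _ (hQ.mono (Finset.erase_subset _ _)) (fun x hx => ?_)
    obtain ⟨h1, h2⟩ := Finset.mem_erase.1 hx
    exact (hQT x h2).resolve_left h1
  have := Finset.pred_card_le_card_erase (s := Q) (a := v)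
  omega

/-- Adding an independent set. -/
theorem CF.indep {A B : Set α} {s : ℕ} (hA : CF H A s)
    (hB : ∀ x ∈ B, ∀ y ∈ B, ¬ H.Adj x y) : CF H (A ∪ B) (s + 1) := by
  classical
  intro Q hQ hQT
  by_cases h1 : ∀ x ∈ Q, x ∈ A
  · exact (hA Q hQ h1).trans (Nat.le_succ s)
  · push Not at h1
    obtain ⟨y, hy, hyA⟩ := h1
    have hyB : y ∈ B := (hQT y hy).resolve_left hyA
    have h1 : (Q.erase y).card ≤ s := by
      refine hA _ (hQ.mono (Finset.erase_subset _ _)) (fun x hx => ?_)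
      obtain ⟨h1, h2⟩ := Finset.mem_erase.1 hx
      rcases hQT x h2 with hxA | hxB
      · exact hxA
      · exact absurd (hQ x h2 y hy h1) (hB x hxB y hyB)
    have := Finset.pred_card_le_card_erase (s := Q) (a := y)
    omega

/-- The neighbours of a point. -/
theorem CF.nbr {A : Set α} {s : ℕ} (hA : CF H A (s + 1)) {v : α} (hv : v ∈ A) :
    CF H {u | u ∈ A ∧ H.Adj v u} s := by
  classical
  intro Q hQ hQT
  have hvQ : v ∉ Q := fun h => H.irrefl (hQT v h).2
  have := hA (Insert.insert v Q) (by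
    intro x hx y hy hxy
    rcases Finset.mem_insert.1 hx with h1 | h1 <;> rcases Finset.mem_insert.1 hy with h2 | h2
    · exact absurd (h1.trans h2.symm) hxy
    · rw [h1]
      exact (hQT y h2).2
    · rw [h2]
      exact (hQT x h1).2.symm
    · exact hQ x h1 y h2 hxy) (by
    intro x hx
    rcases Finset.mem_insert.1 hx with h1 | h1
    · rw [h1]
      exact hv
    · exact (hQT x h1).1)
  rw [Finset.card_insert_of_notMem hvQ] at this
  omega

/-- A point together with the rest: cliques through the point are bounded by its neighbours. -/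
theorem CF.of_nbr {A : Set α} {s : ℕ} {v : α} (h1 : CF H (A \ {v}) (s + 1))
    (h2 : CF H {u | u ∈ A ∧ H.Adj v u} s) : CF H A (s + 1) := by
  classical
  intro Q hQ hQT
  by_cases hv : v ∈ Q
  · have h3 : (Q.erase v).card ≤ s := by
      refine h2 _ (hQ.mono (Finset.erase_subset _ _)) (fun x hx => ?_)
      obtain ⟨h4, h5⟩ := Finset.mem_erase.1 hx
      exact ⟨hQT x h5, hQ v hv x h5 (Ne.symm h4)⟩
    have := Finset.pred_card_le_card_erase (s := Q) (a := v)
    omega
  · exact h1 Q hQ (fun x hx => ⟨hQT x hx, fun e => hv (e ▸ hx)⟩)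

/-- Images. -/
theorem CF.image {γ : Type} {X : SimpleGraph γ} {T : Set α} {s : ℕ} (h : CF H T s) (g : α → γ)
    (hg : ∀ x ∈ T, ∀ y ∈ T, X.Adj (g x) (g y) → H.Adj x y) : CF X (g '' T) s := by
  classical
  intro Q hQ hQT
  rcases Q.eq_empty_or_nonempty with rfl | ⟨q, hq⟩
  · simp
  obtain ⟨k0, -⟩ := hQT q hq
  have : Nonempty α := ⟨k0⟩
  choose! k hk using hQT
  have hinj : Set.InjOn k Q := by
    intro x hx y hy e
    rw [← (hk x hx).2, ← (hk y hy).2, e]
  rw [← Finset.card_image_of_injOn hinj]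
  refine h _ ?_ ?_
  · intro x hx y hy hxy
    obtain ⟨x', hx', rfl⟩ := Finset.mem_image.1 hx
    obtain ⟨y', hy', rfl⟩ := Finset.mem_image.1 hy
    refine hg _ (hk x' hx').1 _ (hk y' hy').1 ?_
    rw [(hk x' hx').2, (hk y' hy').2]
    exact hQ x' hx' y' hy' (fun e => hxy (by rw [e]))
  · intro x hx
    obtain ⟨x', hx', rfl⟩ := Finset.mem_image.1 hx
    exact (hk x' hx').1

theorem CF.zero_iff {T : Set α} : CF H T 0 ↔ ∀ x, x ∉ T := by
  classical
  constructor
  · intro h x hx
    have := h {x} (by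
      intro a ha b hb hab
      exact absurd ((Finset.mem_singleton.1 ha).trans (Finset.mem_singleton.1 hb).symm) hab)
      (by
        intro y hy
        rw [Finset.mem_singleton.1 hy]
        exact hx)
    simp at this
  · intro h Q _ hQT
    rw [Finset.card_eq_zero.2 (Finset.eq_empty_of_forall_notMem (fun x hx => h x (hQT x hx)))]

end CF

/-- Every finite graph without cliques of size `s + 1` is in `PS` (for all `r`). -/
def FreeIn (G : SimpleGraph V) (s : ℕ) : Prop :=
  ∀ (α : Type) [Finite α] (H : SimpleGraph α) (T : Set α), CF H T s → PS G Set.univ H T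

/-- Every finite clique is in `PS G S`. -/
def CliqueIn (G : SimpleGraph V) (S : Set ℕ) : Prop :=
  ∀ (α : Type) [Finite α] (H : SimpleGraph α) (T : Set α),
    (∀ x ∈ T, ∀ y ∈ T, x ≠ y → H.Adj x y) → PS G S H T

/-- Every independent set with at most three elements is in `PS G S`. -/
def Ind3In (G : SimpleGraph V) (S : Set ℕ) : Prop :=
  ∀ (α : Type) [Finite α] (H : SimpleGraph α) (T : Set α),
    (∀ x ∈ T, ∀ y ∈ T, ¬ H.Adj x y) → T.ncard ≤ 3 → PS G S H T

/-- Every finite star is in `PS G S`. -/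
def StarIn (G : SimpleGraph V) (S : Set ℕ) : Prop :=
  ∀ (α : Type) [Finite α] (H : SimpleGraph α) (T : Set α) (c : α), c ∈ T →
    (∀ x ∈ T, x ≠ c → H.Adj c x) → (∀ x ∈ T, x ≠ c → ∀ y ∈ T, y ≠ c → ¬ H.Adj x y) →
    PS G S H T

/-- The configuration of Lemma K: an edge `a b` in the cover `T`. -/
structure KC {α : Type} (H : SimpleGraph α) (U T : Set α) (a b : α) (s : ℕ) : Prop where
  sub : T ⊆ U
  ha : a ∈ T
  hb : b ∈ T
  ab : H.Adj a b
  ind : ∀ x ∈ U, x ∉ T → ∀ y ∈ U, y ∉ T → ¬ H.Adj x y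
  fa : CF H (T \ {a}) (s + 1)
  fb : CF H (T \ {b}) (s + 1)
  fab : CF H (T \ {a, b}) s

/-- The configuration of Lemma KI: `K_m * I_2` over an independent set; the common neighbours `C`
see all points seen by `a` or `b`. -/
structure KI {α : Type} (H : SimpleGraph α) (U C : Set α) (a b : α) : Prop where
  sub : C ⊆ U
  ha : a ∈ U
  hb : b ∈ U
  haC : a ∉ C
  hbC : b ∉ C
  ab : a ≠ b
  nab : ¬ H.Adj a b
  cc : ∀ x ∈ C, ∀ y ∈ C, x ≠ y → H.Adj x y
  ca : ∀ c ∈ C, H.Adj c a
  cb : ∀ c ∈ C, H.Adj c b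
  ind : ∀ x ∈ U, x ∉ C → x ≠ a → x ≠ b → ∀ y ∈ U, y ∉ C → y ≠ a → y ≠ b → ¬ H.Adj x y
  cov : ∀ c ∈ C, ∀ j ∈ U, j ∉ C → j ≠ a → j ≠ b → (H.Adj a j ∨ H.Adj b j) → H.Adj c j

/-- The number of points of the independent part seen by `b` and not by `a`. -/
noncomputable def s01 {α : Type} (H : SimpleGraph α) (U C : Set α) (a b : α) : ℕ :=
  {j | j ∈ U ∧ j ∉ C ∧ j ≠ a ∧ j ≠ b ∧ ¬ H.Adj a j ∧ H.Adj b j}.ncard

/-- The number of points of the independent part seen by `a` and `b`. -/
noncomputable def s11 {α : Type} (H : SimpleGraph α) (U C : Set α) (a b : α) : ℕ :=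
  {j | j ∈ U ∧ j ∉ C ∧ j ≠ a ∧ j ≠ b ∧ H.Adj a j ∧ H.Adj b j}.ncard

/-- Three different points `x, a, b` of `U`, the rest of `U` being independent, the points of the
rest having the status `Sg` (adjacency to `x`, to `a`, to `b`). -/
structure Tri {α : Type} (H : SimpleGraph α) (U : Set α) (x a b : α)
    (Sg : Prop → Prop → Prop → Prop) : Prop where
  hx : x ∈ U
  ha : a ∈ U
  hb : b ∈ U
  xa : x ≠ a
  xb : x ≠ b
  ab : a ≠ b
  ind : ∀ i ∈ U, i ≠ x → i ≠ a → i ≠ b → ∀ j ∈ U, j ≠ x → j ≠ a → j ≠ b → ¬ H.Adj i j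
  st : ∀ j ∈ U, j ≠ x → j ≠ a → j ≠ b → Sg (H.Adj x j) (H.Adj a j) (H.Adj b j)

/-- All graphs consisting of a path `a x b` and an independent set with statuses in `Sg` embed. -/
def P3C (G : SimpleGraph V) (r : ℕ) (Sg : Prop → Prop → Prop → Prop) : Prop :=
  ∀ (α : Type) [Finite α] (H : SimpleGraph α) (U : Set α) (x a b : α), Tri H U x a b Sg →
    H.Adj x a → H.Adj x b → ¬ H.Adj a b → InW G r H U

/-- All graphs consisting of an edge `a b`, a point `x` not adjacent to it and an independent set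
with statuses in `Sg` embed. -/
def CP3C (G : SimpleGraph V) (r : ℕ) (Sg : Prop → Prop → Prop → Prop) : Prop :=
  ∀ (α : Type) [Finite α] (H : SimpleGraph α) (U : Set α) (x a b : α), Tri H U x a b Sg →
    H.Adj a b → ¬ H.Adj x a → ¬ H.Adj x b → InW G r H U

/-- Exchange of `a` and `b`. -/
theorem Tri.swap {α : Type} {H : SimpleGraph α} {U : Set α} {x a b : α}
    {Sg : Prop → Prop → Prop → Prop} (h : Tri H U x a b Sg) :
    Tri H U x b a (fun p q r => Sg p r q) where
  hx := h.hx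
  ha := h.hb
  hb := h.ha
  xa := h.xb
  xb := h.xa
  ab := h.ab.symm
  ind i hi h1 h2 h3 j hj h4 h5 h6 := h.ind i hi h1 h3 h2 j hj h4 h6 h5
  st j hj h1 h2 h3 := h.st j hj h1 h3 h2

theorem P3C.swap {r : ℕ} {Sg : Prop → Prop → Prop → Prop} (h : P3C G r Sg) :
    P3C G r (fun p q s => Sg p s q) := by
  intro α _ H U x a b ht h1 h2 h3
  exact h α H U x b a ht.swap h2 h1 (fun e => h3 e.symm)

theorem CP3C.swap {r : ℕ} {Sg : Prop → Prop → Prop → Prop} (h : CP3C G r Sg) :
    CP3C G r (fun p q s => Sg p s q) := by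
  intro α _ H U x a b ht h1 h2 h3
  exact h α H U x b a ht.swap h1.symm h3 h2

theorem PS.subset {S S' : Set ℕ} {α : Type} {A : SimpleGraph α} {T : Set α} (h : PS G S A T)
    (hS : S' ⊆ S) : PS G S' A T := fun β _ R r hr => h β R r (hS hr)

/-- The statement of the theorem on conjugacy of embeddings (proved for `UBase G` in the honesty
part), taken as a hypothesis by the modules. -/
def WG (G : SimpleGraph V) : Prop :=
  ∀ (S : Set ℕ) (r : ℕ), r ∈ S → ∀ (α : Type) [Finite α] (H : SimpleGraph α) (U T : Set α),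
    T ⊆ U → (∀ x ∈ U, x ∉ T → ∀ y ∈ U, y ∉ T → ¬ H.Adj x y) → PS G S H T →
    (∀ x ∈ U, ∃ y ∈ U, y ≠ x ∧ ¬ H.Adj x y) → AutPres H U T → Uniq G r H U

/-! ### strong amalgamation classes -/

/-- A class of finite graphs (given as graph and subset) closed under induced subgraphs and
isomorphisms, with strong one-point amalgamation, containing the one-point graph. -/
structure SAC (P : ∀ α : Type, SimpleGraph α → Set α → Prop) : Prop where
  comap : ∀ (α α' : Type) (A : SimpleGraph α) (T : Set α) (A' : SimpleGraph α') (T' : Set α')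
    (g : α' → α), P α A T → (∀ x ∈ T', g x ∈ T) → Set.InjOn g T' →
    (∀ x ∈ T', ∀ y ∈ T', (A'.Adj x y ↔ A.Adj (g x) (g y))) → P α' A' T'
  ap : ∀ (α : Type) [Finite α] (A A' : SimpleGraph α) (T : Set α) (a b : α), a ∈ T → b ∈ T →
    a ≠ b → (∀ x y, ¬ (x = a ∧ y = b) → ¬ (x = b ∧ y = a) → (A.Adj x y ↔ A'.Adj x y)) →
    A.Adj a b → ¬ A'.Adj a b → P α A (T \ {a}) → P α A (T \ {b}) → P α A T ∨ P α A' T
  pt : P Unit ⊥ Set.univ

/-- All paths with three vertices are in the class. -/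
def InP3 (P : ∀ α : Type, SimpleGraph α → Set α → Prop) : Prop :=
  ∀ (α : Type) (A : SimpleGraph α) (x a b : α), A.Adj x a → A.Adj x b → a ≠ b → ¬ A.Adj a b →
    P α A {x, a, b}

/-- All complements of paths with three vertices are in the class. -/
def InCP3 (P : ∀ α : Type, SimpleGraph α → Set α → Prop) : Prop :=
  ∀ (α : Type) (A : SimpleGraph α) (x a b : α), A.Adj a b → x ≠ a → x ≠ b → ¬ A.Adj x a →
    ¬ A.Adj x b → P α A {x, a, b}

/-- All cliques with at most `n` elements are in the class. -/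
def InCl (P : ∀ α : Type, SimpleGraph α → Set α → Prop) (n : ℕ) : Prop :=
  ∀ (α : Type) (A : SimpleGraph α) (T : Set α), T.Finite → T.ncard ≤ n →
    (∀ x ∈ T, ∀ y ∈ T, x ≠ y → A.Adj x y) → P α A T

/-- All independent sets with at most `n` elements are in the class. -/
def InInd (P : ∀ α : Type, SimpleGraph α → Set α → Prop) (n : ℕ) : Prop :=
  ∀ (α : Type) (A : SimpleGraph α) (T : Set α), T.Finite → T.ncard ≤ n →
    (∀ x ∈ T, ∀ y ∈ T, ¬ A.Adj x y) → P α A T

/-- Every one-point extension of a finite graph embedding into `Y` embeds into `G`. -/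
def Below {W : Type} (Y : SimpleGraph W) (G : SimpleGraph V) : Prop :=
  ∀ (α : Type) [Finite α] (A : SimpleGraph α) (x : α), Nonempty (A.induce {x}ᶜ ↪g Y) →
    Nonempty (A ↪g G)

end Un
end SetHom
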