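import Pool.Agent.Helper30.U.I3
import Pool.Agent.Helper30.U.A5
import Pool.Agent.Helper25.DI.RelAlpha
import Pool.Agent.Helper25.DI.Univ
import Pool.Agent.Helper25.U.A23
import Pool.Agent.Helper76.U.A4
import Pool.Agent.Helper76.U.D124
import Pool.Agent.Helper76.U.WG
import Pool.Agent.Helper83.U.H5
import Pool.Agent.Helper87.U.A1
import Pool.Agent.Helper84.U.K3
import Pool.Agent.Helper52.U.C2
import Pool.Agent.Helper52.U.D8D9
import Pool.Agent.Helper92.U.D12D13
import Pool.Agent.Helper30.SH.FSm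

/-!
# MP_506470_co : doubly infinite case, assembly
-/

namespace SetHom
namespace Un

variable {V : Type} {G : SimpleGraph V}

theorem sac_PS' (hB : UBase G) {S : Set ℕ} (h1 : PS G S (⊥ : SimpleGraph Unit) Set.univ) :
    SAC (fun _ A T => PS G S A T) where
  comap _ _ _ _ _ _ g h hg hinj hadj := PS.comap h g hg hinj hadj
  ap _ _ _ _ _ _ _ ha hb hab hag h1 h2 hPa hPb := ap1 hB ha hb hab hag h1 h2 hPa hPb
  pt := h1

theorem InCl.mono {P : ∀ α : Type, SimpleGraph α → Set α → Prop} {m n : ℕ} (h : InCl P n)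
    (hmn : m ≤ n) : InCl P m := fun α A T hT hc hcl => h α A T hT (hc.trans hmn) hcl

theorem InInd.mono {P : ∀ α : Type, SimpleGraph α → Set α → Prop} {m n : ℕ} (h : InInd P n)
    (hmn : m ≤ n) : InInd P m := fun α A T hT hc hcl => h α A T hT (hc.trans hmn) hcl

theorem InCl.of_cliqueIn {S : Set ℕ} (hS : SAC (fun _ A T => PS G S A T)) (h : CliqueIn G S)
    (n : ℕ) : InCl (fun _ A T => PS G S A T) n := by
  intro α A T hT _ hcl
  have : Finite T := hT
  exact hS.of_fin (h T (A.induce T) Set.univ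
    (fun x _ y _ hxy => hcl x.1 x.2 y.1 y.2 (fun e => hxy (Subtype.ext e))))

theorem clqEx {α : Type} {H : SimpleGraph α} {x y : α} (h : H.Adj x y) [DecidableEq α] :
    Clq H {x, y} := by
  intro a ha b hb hab
  simp only [Finset.mem_insert, Finset.mem_singleton] at ha hb
  rcases ha with rfl | rfl <;> rcases hb with rfl | rfl
  · exact absurd rfl hab
  · exact h
  · exact h.symm
  · exact absurd rfl hab

/-- Case II. -/
theorem split_of_inf' (hW : WG G) (hS : SAC (fun _ A T => PS G Set.univ A T)) :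
    CliqueIn G {0} := by
  classical
  by_contra hcon
  have hn : ∃ n, ¬ InCl (fun _ A T => PS G Set.univ A T) n := by
    by_contra h
    push Not at h
    apply hcon
    intro α _ H T hT
    exact (h T.ncard α H T (Set.toFinite T) le_rfl hT).subset (Set.subset_univ _)
  have hI : ∀ n, InInd (fun _ A T => PS G Set.univ A T) n := by
    rcases sac_ramsey hS with h | h
    · obtain ⟨n, hn⟩ := hn
      exact absurd (h n) hn
    · exact h
  have hF1 : FreeIn G 1 := by
    intro α _ H T hT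
    refine hI T.ncard α H T (Set.toFinite T) le_rfl (fun x hx y hy hxy => ?_)
    have := hT {x, y} (clqEx hxy) (by
      intro z hz
      simp only [Finset.mem_insert, Finset.mem_singleton] at hz
      rcases hz with rfl | rfl
      · exact hx
      · exact hy)
    rw [Finset.card_pair hxy.ne] at this
    omega
  have h2 : InCl (fun _ A T => PS G Set.univ A T) 2 := lemK hW (s := 0) hF1
  have h3 : InP3 (fun _ A T => PS G Set.univ A T) := by
    by_contra h
    obtain ⟨n, hn⟩ := hn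
    exact hn (sac_clique hS h2 h n)
  have h3' : InCP3 (fun _ A T => PS G Set.univ A T) := by
    by_contra h
    obtain ⟨hi3, hst⟩ := sac_star hS h2 (hI 2) h
    exact h (cp3_mem hW (fun α _ H T hT hc => hi3 α H T (Set.toFinite T) hc hT) hst)
  have hs : ¬ InCl (fun _ A T => PS G Set.univ A T) (Nat.find hn) := Nat.find_spec hn
  have hge : 3 ≤ Nat.find hn := by
    by_contra hlt
    exact hs (h2.mono (by omega))
  obtain ⟨s, hs2⟩ : ∃ s, Nat.find hn = s + 2 := ⟨Nat.find hn - 2, by omega⟩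
  rw [hs2] at hs
  have hs1 : InCl (fun _ A T => PS G Set.univ A T) (s + 1) := by
    by_contra h
    exact Nat.find_min hn (m := s + 1) (by omega) h
  have hfree : FreeIn G (s + 1) := fun α _ H T hT => sac_free_of hS (sac_limit hS) h3 h3' hs1 hs α H T hT
  exact hs (lemK hW hfree)

theorem caseI' (hW : WG G) (hS : SAC (fun _ A T => PS G {0} A T))
    (hC : CliqueIn G {0}) : InInd (fun _ A T => PS G {0} A T) 2 ∧
      InP3 (fun _ A T => PS G {0} A T) ∧ InCP3 (fun _ A T => PS G {0} A T) := by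
  obtain ⟨-, hI2, hP3⟩ := ki_all hW hC
  refine ⟨hI2, hP3, ?_⟩
  by_contra h
  obtain ⟨hi3, hst⟩ := sac_star hS (InCl.of_cliqueIn hS hC 2) hI2 h
  exact h (cp3_mem hW (fun α _ H T hT hc => hi3 α H T (Set.toFinite T) hc hT) hst)

theorem InW.emb {α : Type} {A : SimpleGraph α} {r : ℕ} (h : InW G r A Set.univ) :
    Nonempty (A ↪g G) := by
  obtain ⟨W, f, h⟩ := h
  exact ⟨⟨⟨f, fun x y e => h.inj trivial trivial e⟩, fun {x y} => h.adj x trivial y trivial⟩⟩

theorem next_of_ind' (hW : WG G) (hS : SAC (fun _ A T => PS G {0} A T))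
    (hC : CliqueIn G {0}) (hI : ∀ n, InInd (fun _ A T => PS G {0} A T) n) :
    ∃ Y : SimpleGraph ℕ, DI Y ∧ Below Y G := by
  classical
  obtain ⟨hI2, hP3, hCP3⟩ := caseI' hW hS hC
  obtain ⟨Y, hY, hage⟩ := sac_limit hS
  refine ⟨Y, ⟨sh_of_hom hY, ?_, ?_, ?_, ?_⟩, ?_⟩
  · intro n
    obtain ⟨e⟩ := (hage (Fin n) ⊤).1 (hC (Fin n) ⊤ Set.univ (fun x _ y _ hxy => hxy))
    refine ⟨Finset.univ.map e.toEmbedding, ?_, by simp⟩
    intro x hx y hy hxy
    obtain ⟨i, -, rfl⟩ := Finset.mem_map.1 hx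
    obtain ⟨j, -, rfl⟩ := Finset.mem_map.1 hy
    exact e.map_adj_iff.2 (fun h => hxy (by rw [h]))
  · intro n
    obtain ⟨e⟩ := (hage (Fin n) ⊥).1 (hI (Set.univ : Set (Fin n)).ncard (Fin n) ⊥ Set.univ
      (Set.toFinite _) le_rfl (fun x _ y _ hxy => hxy))
    refine ⟨Finset.univ.map e.toEmbedding, ?_, by simp⟩
    intro x hx y hy hxy
    obtain ⟨i, -, rfl⟩ := Finset.mem_map.1 hx
    obtain ⟨j, -, rfl⟩ := Finset.mem_map.1 hy
    exact e.map_adj_iff.1 hxy
  · let A : SimpleGraph (Fin 3) := SimpleGraph.fromEdgeSet {s(1, 0), s(1, 2)}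
    have h10 : A.Adj 1 0 := by simp [A]
    have h12 : A.Adj 1 2 := by simp [A]
    have h02 : ¬ A.Adj 0 2 := by simp [A]
    have hu : ({1, 0, 2} : Set (Fin 3)) = Set.univ := by
      ext x
      fin_cases x <;> simp
    have := hP3 (Fin 3) A 1 0 2 h10 h12 (by decide) h02
    rw [hu] at this
    obtain ⟨e⟩ := (hage (Fin 3) A).1 this
    exact ⟨e 0, e 1, e 2, e.map_adj_iff.2 h10.symm, e.map_adj_iff.2 h12,
      fun h => absurd (e.injective h) (by decide), fun h => h02 (e.map_adj_iff.1 h)⟩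
  · let A : SimpleGraph (Fin 3) := SimpleGraph.fromEdgeSet {s(0, 1)}
    have h01 : A.Adj 0 1 := by simp [A]
    have h20 : ¬ A.Adj 2 0 := by simp [A]
    have h21 : ¬ A.Adj 2 1 := by simp [A]
    have hu : ({2, 0, 1} : Set (Fin 3)) = Set.univ := by
      ext x
      fin_cases x <;> simp
    have := hCP3 (Fin 3) A 2 0 1 h01 (by decide) (by decide) h20 h21
    rw [hu] at this
    obtain ⟨e⟩ := (hage (Fin 3) A).1 this
    exact ⟨e 0, e 1, e 2, e.map_adj_iff.2 h01,
      fun h => absurd (e.injective h) (by decide), fun h => absurd (e.injective h) (by decide),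
      fun h => h20 (e.map_adj_iff.1 h).symm, fun h => h21 (e.map_adj_iff.1 h).symm⟩
  · intro α _ A x hx
    have h1 : PS G {0} (A.induce {x}ᶜ) Set.univ := (hage _ _).2 hx
    have h2 : PS G {0} A {x}ᶜ := hS.of_fin h1
    have h3 : InW G 0 A Set.univ := h2.inW (U := Set.univ) (by
      intro y _ hy z _ hz hyz
      simp only [Set.mem_compl_iff, Set.mem_singleton_iff, not_not] at hy hz
      subst hy
      subst hz
      exact A.irrefl hyz) (by simp : (0 : ℕ) ∈ ({0} : Set ℕ))
    exact h3.emb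

/-- Embeddings and complements. -/
theorem InW.compl {α : Type} {A : SimpleGraph α} {U : Set α} (h : InW G 0 Aᶜ U) :
    InW Gᶜ 0 A U := by
  obtain ⟨W, f, h⟩ := h
  have hW : W = ∅ := Finset.card_eq_zero.1 h.card
  subst hW
  refine ⟨∅, f, ?_, rfl, ?_, h.inj, ?_⟩
  · intro x hx
    simp at hx
  · intro x _ w hw
    simp at hw
  · intro x hx y hy
    have h1 := h.adj x hx y hy
    rw [SimpleGraph.compl_adj, h1, SimpleGraph.compl_adj]
    constructor
    · rintro ⟨h2, h3⟩
      by_contra h4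
      exact h3 ⟨fun e => h2 (by rw [e]), h4⟩
    · intro h2
      exact ⟨fun e => h2.ne (h.inj hx hy e), fun e => e.2 h2⟩

theorem UJ_eq {α β : Type} (T : Set α) : UJ β T = Sum.inl '' T ∪ Set.range Sum.inr := by
  ext (x | x)
  · simp
  · simp

theorem ind_compl' (hW : WG G) (hS : SAC (fun _ A T => PS G {0} A T))
    (hSc : SAC (fun _ A T => PS Gᶜ {0} A T))
    (hC : CliqueIn G {0}) (hI : ¬ ∀ n, InInd (fun _ A T => PS G {0} A T) n) :
    ∀ n, InInd (fun _ A T => PS Gᶜ {0} A T) n := by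
  classical
  obtain ⟨hI2, hP3, hCP3⟩ := caseI' hW hS hC
  let P' : ∀ α : Type, SimpleGraph α → Set α → Prop := fun _ A T => PS G {0} Aᶜ T
  have hS' : SAC P' := by
    refine ⟨?_, ?_, ?_⟩
    · intro α α' A T A' T' g h hg hinj hadj
      refine PS.comap h g hg hinj ?_
      intro x hx y hy
      rw [SimpleGraph.compl_adj, SimpleGraph.compl_adj, hadj x hx y hy]
      exact and_congr_left fun _ => not_congr (hinj.eq_iff hx hy).symm
    · intro α _ A A' T a b ha hb hab hag h1 h2 hPa hPb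
      have hPa' : PS G {0} A'ᶜ (T \ {a}) := by
        refine PS.comap hPa id (fun _ hx => hx) (fun _ _ _ _ e => e) ?_
        intro x hx y hy
        simp only [SimpleGraph.compl_adj, id]
        rw [hag x y (fun e => hx.2 e.1) (fun e => hy.2 e.2)]
      have hPb' : PS G {0} A'ᶜ (T \ {b}) := by
        refine PS.comap hPb id (fun _ hx => hx) (fun _ _ _ _ e => e) ?_
        intro x hx y hy
        simp only [SimpleGraph.compl_adj, id]
        rw [hag x y (fun e => hy.2 e.2) (fun e => hx.2 e.1)]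
      refine (hS.ap α A'ᶜ Aᶜ T a b ha hb hab ?_ ?_ ?_ hPa' hPb').symm
      · intro x y h3 h4
        rw [SimpleGraph.compl_adj, SimpleGraph.compl_adj, hag x y h3 h4]
      · rw [SimpleGraph.compl_adj]
        exact ⟨hab, h2⟩
      · rw [SimpleGraph.compl_adj]
        exact fun e => e.2 h1
    · have : ((⊥ : SimpleGraph Unit)ᶜ) = ⊥ := by
        ext x y
        simp
      show PS G {0} (⊥ : SimpleGraph Unit)ᶜ Set.univ
      rw [this]
      exact hS.pt
  have h3 : InP3 P' := by
    intro α A x a b hxa hxb hab hnab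
    refine hCP3 α Aᶜ x a b ?_ hxa.ne hxb.ne ?_ ?_
    · rw [SimpleGraph.compl_adj]
      exact ⟨hab, hnab⟩
    · rw [SimpleGraph.compl_adj]
      exact fun e => e.2 hxa
    · rw [SimpleGraph.compl_adj]
      exact fun e => e.2 hxb
  have h3' : InCP3 P' := by
    intro α A x a b hab hxa hxb hnxa hnxb
    refine hP3 α Aᶜ x a b ?_ ?_ hab.ne ?_
    · rw [SimpleGraph.compl_adj]
      exact ⟨hxa, hnxa⟩
    · rw [SimpleGraph.compl_adj]
      exact ⟨hxb, hnxb⟩
    · rw [SimpleGraph.compl_adj]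
      exact fun e => e.2 hab
  have hcl : ∀ n, InInd (fun _ A T => PS G {0} A T) n → InCl P' n := by
    intro n h α A T hT hc hcl
    refine h α Aᶜ T hT hc (fun x hx y hy hxy => ?_)
    rw [SimpleGraph.compl_adj] at hxy
    exact hxy.2 (hcl x hx y hy hxy.1)
  have hcl' : ∀ n, InCl P' n → InInd (fun _ A T => PS G {0} A T) n := by
    intro n h α A T hT hc hcl
    have := h α Aᶜ T hT hc (fun x hx y hy hxy => by
      rw [SimpleGraph.compl_adj]
      exact ⟨hxy, hcl x hx y hy⟩)
    have h2 : PS G {0} Aᶜᶜ T := this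
    rwa [compl_compl] at h2
  have hn : ∃ n, ¬ InCl P' n := by
    by_contra h
    push Not at h
    exact hI (fun n => hcl' n (h n))
  have hs : ¬ InCl P' (Nat.find hn) := Nat.find_spec hn
  have h2 : InCl P' 2 := hcl 2 hI2
  have hge : 3 ≤ Nat.find hn := by
    by_contra hlt
    exact hs (h2.mono (by omega))
  obtain ⟨s, hs2⟩ : ∃ s, Nat.find hn = s + 1 := ⟨Nat.find hn - 1, by omega⟩
  rw [hs2] at hs
  have hs1 : InCl P' s := by
    by_contra h
    exact Nat.find_min hn (m := s) (by omega) h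
  have hfree := sac_free_of hS' (sac_limit hS') h3 h3' hs1 hs
  -- bipartite graphs
  intro n α A T hT _ hcl
  have hfin : Finite T := hT
  refine hSc.of_fin ?_
  intro β _ R r hr
  have hr0 : r = 0 := hr
  subst hr0
  have hCF : CF (AJ (A.induce T) R) (UJ β Set.univ) 2 := by
    rw [UJ_eq]
    refine CF.indep (s := 1) ?_ ?_
    · have h0 : CF (AJ (A.induce T) R) ∅ 0 := CF.zero_iff.2 (fun x => Set.notMem_empty x)
      have := h0.indep (B := Sum.inl '' (Set.univ : Set T)) (by
        rintro _ ⟨x, -, rfl⟩ _ ⟨y, -, rfl⟩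
        exact hcl x.1 x.2 y.1 y.2)
      simpa using this
    · rintro _ ⟨x, rfl⟩ _ ⟨y, rfl⟩
      exact AJ_rr _ _
  have h4 : PS G {0} (AJ (A.induce T) R)ᶜ (UJ β Set.univ) :=
    hfree _ (AJ (A.induce T) R) (UJ β Set.univ) (hCF.mono (le_refl _) (by omega))
  have h5 : InW G 0 (AJ (A.induce T) R)ᶜ (UJ β Set.univ) := h4.inW (by
    intro x hx hx2
    exact absurd hx hx2) (by simp : (0 : ℕ) ∈ ({0} : Set ℕ))
  exact h5.compl

/-! ### the doubly infinite case -/

theorem card_filter_ncard {W : Type} (J : Finset W) (p : W → Prop) [DecidablePred p] :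
    {j | j ∈ J ∧ p j}.ncard = (J.filter p).card := by
  rw [← Set.ncard_coe_finset]
  congr 1
  ext x
  simp

theorem hfs {W : Type} {G : SimpleGraph W} (h : DI G) : FS.FullSym G :=
  FS.fullSym h.sh h.ind h.k3k1

/-- Cliques are free over independent sets (graphs with large joins). -/
theorem clique_of_join (h : DI G)
    (hJ : ∀ n : ℕ, ∃ K J : Finset V, Clq G K ∧ K.card = n ∧ Indep G J ∧ J.card = n ∧
      ∀ x ∈ K, ∀ y ∈ J, G.Adj x y) : CliqueIn G {0} := by
  classical
  have hB : UBase G := ⟨h.sh, hfs h, h.shI (hfs h)⟩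
  refine split_of_inf' (wg_of_ubase hB) (sac_PS' hB (ps1_univ ?_))
  intro r s t
  obtain ⟨W, J, v, h1, h2, h3, h4, h5, h6, h7⟩ := rel_alpha h (hfs h.compl) (fun n => by
    obtain ⟨K, J, h1, h2, h3, h4, h5⟩ := hJ n
    exact ⟨K, J, h1, h3, h2, h4, h5⟩) r s t
  refine ⟨W, J, v, h1, h2, h3, h4, h5, ?_, ?_⟩
  · rw [card_filter_ncard]
    convert h6
  · rw [card_filter_ncard]
    convert h7

theorem clique_di (h : DI G) :
    CliqueIn G {0} := by
  rcases join_or h with hJ | hJ
  · exact clique_of_join h hJ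
  · have := cliqueIn_compl (clique_of_join h.compl hJ)
    rwa [compl_compl] at this

theorem di_next (V : Type)
    (G : SimpleGraph V) (h : DI G) : ∃ (W : Type) (Y : SimpleGraph W), DI Y ∧ Below Y G := by
  have hB : UBase G := ⟨h.sh, hfs h, h.shI (hfs h)⟩
  have hBc : UBase Gᶜ := ⟨h.compl.sh, hfs h.compl, h.compl.shI (hfs h.compl)⟩
  have hC := clique_di h
  have hS : SAC (fun _ A T => PS G {0} A T) := sac_PS' hB (ps1_zero hB.shi h.ind)
  have hSc : SAC (fun _ A T => PS Gᶜ {0} A T) := sac_PS' hBc (ps1_zero hBc.shi h.compl.ind)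
  by_cases hI : ∀ n, InInd (fun _ A T => PS G {0} A T) n
  · obtain ⟨Y, h1, h2⟩ := next_of_ind' (wg_of_ubase hB) hS hC hI
    exact ⟨ℕ, Y, h1, h2⟩
  · obtain ⟨Y, h1, h2⟩ := next_of_ind' (wg_of_ubase hBc) hSc (cliqueIn_compl hC)
      (ind_compl' (wg_of_ubase hB) hS hSc hC hI)
    exact ⟨ℕ, Yᶜ, h1.compl, below_compl h2⟩

/-- Doubly infinite set-homogeneous graphs are homogeneous. -/
theorem di_homogeneous (h : DI G) :
    Homogeneous G := by
  refine hom_of_universal h.sh (fun ι _ Q => ?_)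
  obtain ⟨n, ⟨e⟩⟩ := Finite.exists_equiv_fin ι
  obtain ⟨f⟩ := univ_of_next (fun _ G => DI G) di_next n V G h
    (Q.map e.toEmbedding)
  exact ⟨(SimpleGraph.Iso.map e Q).toEmbedding.trans f⟩

end Un
end SetHom
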