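import Pool.Agent.Helper25.DI.Main

/-!
# MP_506470_co : doubly infinite case, definitions and basic tools (embeddings of `K_r * H`)
-/

namespace SetHom
namespace Un

variable {V : Type}

/-- `f` embeds the graph `H` induced on `U` into the set of common neighbours of the clique `W`
with `r` elements. -/
structure EmbW (G : SimpleGraph V) (r : ℕ) {α : Type} (H : SimpleGraph α) (U : Set α)
    (W : Finset V) (f : α → V) : Prop where
  clq : Clq G W
  card : W.card = r
  full : ∀ x ∈ U, Full G (f x) W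
  inj : Set.InjOn f U
  adj : ∀ x ∈ U, ∀ y ∈ U, (G.Adj (f x) (f y) ↔ H.Adj x y)

/-- The join of a clique with `r` vertices and `H` induced on `U` embeds into `G`. -/
def InW (G : SimpleGraph V) (r : ℕ) {α : Type} (H : SimpleGraph α) (U : Set α) : Prop :=
  ∃ W f, EmbW G r H U W f

/-- Any two embeddings of the join of an `r`-clique with `H` induced on `U` are conjugate, the
points of `U` being labelled and the clique being taken as a set. -/
def Uniq (G : SimpleGraph V) (r : ℕ) {α : Type} (H : SimpleGraph α) (U : Set α) : Prop :=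
  ∀ W₁ f₁ W₂ f₂, EmbW G r H U W₁ f₁ → EmbW G r H U W₂ f₂ →
    ∃ φ : G ≃g G, φ '' (W₁ : Set V) = W₂ ∧ ∀ x ∈ U, φ (f₁ x) = f₂ x

/-- The graph `A` together with an independent set `β` attached by the relation `R`. -/
def AJ {α β : Type} (A : SimpleGraph α) (R : α → β → Prop) : SimpleGraph (α ⊕ β) where
  Adj x y := match x, y with
    | Sum.inl a, Sum.inl b => A.Adj a b
    | Sum.inl a, Sum.inr j => R a j
    | Sum.inr j, Sum.inl a => R a j
    | Sum.inr _, Sum.inr _ => False
  symm := ⟨by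
    rintro (a | j) (b | k) h
    · exact SimpleGraph.Adj.symm h
    · exact h
    · exact h
    · exact h⟩
  loopless := ⟨by
    rintro (a | j) h
    · exact A.irrefl h
    · exact h⟩

section AJ
variable {α β : Type} {A : SimpleGraph α} {R : α → β → Prop}

@[simp] theorem AJ_ll (a b : α) : (AJ A R).Adj (Sum.inl a) (Sum.inl b) ↔ A.Adj a b := Iff.rfl
@[simp] theorem AJ_lr (a : α) (j : β) : (AJ A R).Adj (Sum.inl a) (Sum.inr j) ↔ R a j := Iff.rfl
@[simp] theorem AJ_rl (a : α) (j : β) : (AJ A R).Adj (Sum.inr j) (Sum.inl a) ↔ R a j := Iff.rfl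
@[simp] theorem AJ_rr (i j : β) : ¬ (AJ A R).Adj (Sum.inr i) (Sum.inr j) := fun h => h

end AJ

/-- `T` together with the whole independent set `β`. -/
def UJ {α : Type} (β : Type) (T : Set α) : Set (α ⊕ β) := {x | ∀ a, x = Sum.inl a → a ∈ T}

@[simp] theorem mem_UJ_inl {α β : Type} {T : Set α} {a : α} :
    (Sum.inl a : α ⊕ β) ∈ UJ β T ↔ a ∈ T :=
  ⟨fun h => h a rfl, fun h b e => by rw [← Sum.inl.inj e]; exact h⟩

@[simp] theorem mem_UJ_inr {α β : Type} {T : Set α} {j : β} : (Sum.inr j : α ⊕ β) ∈ UJ β T :=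
  fun a e => by simp at e

/-- The graph `A` induced on `T` is free over independent sets: for every finite independent set
attached to it in an arbitrary way and every `r ∈ S` the join with an `r`-clique embeds. -/
def PS (G : SimpleGraph V) (S : Set ℕ) {α : Type} (A : SimpleGraph α) (T : Set α) : Prop :=
  ∀ (β : Type) [Finite β] (R : α → β → Prop), ∀ r ∈ S, InW G r (AJ A R) (UJ β T)

/-- Every automorphism of `H` induced on `U` preserves `T`. -/
def AutPres {α : Type} (H : SimpleGraph α) (U T : Set α) : Prop :=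
  ∀ σ : α → α, Set.BijOn σ U U → (∀ x ∈ U, ∀ y ∈ U, (H.Adj (σ x) (σ y) ↔ H.Adj x y)) →
    ∀ x ∈ U, (σ x ∈ T ↔ x ∈ T)

/-- What is used of the ambient graph. -/
structure UBase (G : SimpleGraph V) : Prop where
  sh : SetHomogeneous G
  fs : FS.FullSym G
  shi : ShI G

/-! ### basic tools -/

variable {G : SimpleGraph V}

/-- Embeddings can be restricted and transported. -/
theorem EmbW.comap {r : ℕ} {α α' : Type} {H : SimpleGraph α} {U : Set α} {H' : SimpleGraph α'}
    {U' : Set α'} {W : Finset V} {f : α → V} (h : EmbW G r H U W f) (g : α' → α)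
    (hg : ∀ x ∈ U', g x ∈ U) (hinj : Set.InjOn g U')
    (hadj : ∀ x ∈ U', ∀ y ∈ U', (H'.Adj x y ↔ H.Adj (g x) (g y))) :
    EmbW G r H' U' W (fun x => f (g x)) where
  clq := h.clq
  card := h.card
  full x hx := h.full (g x) (hg x hx)
  inj x hx y hy e := hinj hx hy (h.inj (hg x hx) (hg y hy) e)
  adj x hx y hy := by rw [h.adj _ (hg x hx) _ (hg y hy), hadj x hx y hy]

theorem InW.comap {r : ℕ} {α α' : Type} {H : SimpleGraph α} {U : Set α} {H' : SimpleGraph α'}
    {U' : Set α'} (h : InW G r H U) (g : α' → α)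
    (hg : ∀ x ∈ U', g x ∈ U) (hinj : Set.InjOn g U')
    (hadj : ∀ x ∈ U', ∀ y ∈ U', (H'.Adj x y ↔ H.Adj (g x) (g y))) : InW G r H' U' := by
  obtain ⟨W, f, h⟩ := h
  exact ⟨W, _, h.comap g hg hinj hadj⟩

theorem EmbW.mono {r : ℕ} {α : Type} {H : SimpleGraph α} {U U' : Set α} {W : Finset V}
    {f : α → V} (h : EmbW G r H U W f) (hU : U' ⊆ U) : EmbW G r H U' W f :=
  h.comap id (fun _ hx => hU hx) (fun _ _ _ _ e => e) (fun _ _ _ _ => Iff.rfl)

theorem InW.mono {r : ℕ} {α : Type} {H : SimpleGraph α} {U U' : Set α} (h : InW G r H U)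
    (hU : U' ⊆ U) : InW G r H U' := by
  obtain ⟨W, f, h⟩ := h
  exact ⟨W, f, h.mono hU⟩

theorem InW.le {r r' : ℕ} {α : Type} {H : SimpleGraph α} {U : Set α} (h : InW G r H U)
    (hr : r' ≤ r) : InW G r' H U := by
  obtain ⟨W, f, h⟩ := h
  obtain ⟨W', hW', hc⟩ := Finset.exists_subset_card_eq (s := W) (n := r') (by rw [h.card]; exact hr)
  exact ⟨W', f, h.clq.mono hW', hc, fun x hx w hw => h.full x hx w (hW' hw), h.inj, h.adj⟩

/-- A vertex adjacent to everything can be moved into the clique and back. -/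
theorem InW.cone {r : ℕ} {α : Type} {H : SimpleGraph α} {U : Set α} {b : α} (hb : b ∈ U)
    (hdom : ∀ x ∈ U, x ≠ b → H.Adj b x) (h : InW G (r + 1) H (U \ {b})) : InW G r H U := by
  classical
  obtain ⟨W, f, h⟩ := h
  have hne : W.Nonempty := by
    rw [← Finset.card_pos, h.card]
    omega
  obtain ⟨w, hw⟩ := hne
  let g : α → V := fun x => if x = b then w else f x
  have gb : g b = w := if_pos rfl
  have gn : ∀ x, x ≠ b → g x = f x := fun x hx => if_neg hx
  have hfw : ∀ x ∈ U, x ≠ b → G.Adj (f x) w := fun x hx hxb => h.full x ⟨hx, hxb⟩ w hw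
  refine ⟨W.erase w, g, h.clq.mono (Finset.erase_subset _ _), ?_, ?_, ?_, ?_⟩
  · rw [Finset.card_erase_of_mem hw, h.card]
    rfl
  · intro x hx u hu
    have hu' := Finset.mem_erase.1 hu
    by_cases hxb : x = b
    · subst hxb
      rw [gb]
      exact h.clq w hw u hu'.2 (Ne.symm hu'.1)
    · rw [gn x hxb]
      exact h.full x ⟨hx, hxb⟩ u hu'.2
  · intro x hx y hy e
    by_cases hxb : x = b <;> by_cases hyb : y = b
    · rw [hxb, hyb]
    · exfalso
      subst hxb
      rw [gb, gn y hyb] at e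
      have := hfw y hy hyb
      rw [← e] at this
      exact G.irrefl this
    · exfalso
      subst hyb
      rw [gb, gn x hxb] at e
      have := hfw x hx hxb
      rw [e] at this
      exact G.irrefl this
    · rw [gn x hxb, gn y hyb] at e
      exact h.inj ⟨hx, hxb⟩ ⟨hy, hyb⟩ e
  · intro x hx y hy
    by_cases hxb : x = b <;> by_cases hyb : y = b
    · subst hxb
      subst hyb
      simp
    · subst hxb
      rw [gb, gn y hyb]
      exact iff_of_true (hfw y hy hyb).symm (hdom y hy hyb)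
    · subst hyb
      rw [gb, gn x hxb]
      exact iff_of_true (hfw x hx hxb) (hdom x hx hxb).symm
    · rw [gn x hxb, gn y hyb]
      exact h.adj x ⟨hx, hxb⟩ y ⟨hy, hyb⟩

/-- `PS` is closed under isomorphisms and induced subgraphs. -/
theorem PS.comap {S : Set ℕ} {α α' : Type} {A : SimpleGraph α} {T : Set α}
    {A' : SimpleGraph α'} {T' : Set α'} (h : PS G S A T) (g : α' → α)
    (hg : ∀ x ∈ T', g x ∈ T) (hinj : Set.InjOn g T')
    (hadj : ∀ x ∈ T', ∀ y ∈ T', (A'.Adj x y ↔ A.Adj (g x) (g y))) : PS G S A' T' := by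
  classical
  intro β _ R r hr
  refine (h β (fun a j => ∃ x ∈ T', g x = a ∧ R x j) r hr).comap (Sum.map g id) ?_ ?_ ?_
  · rintro (a | j) hx
    · rw [mem_UJ_inl] at hx
      simpa using hg a hx
    · simp
  · rintro (a | j) hx (b | k) hy e
    · rw [mem_UJ_inl] at hx hy
      simp only [Sum.map_inl, Sum.inl.injEq] at e
      rw [hinj hx hy e]
    · simp at e
    · simp at e
    · simpa using e
  · have key : ∀ a ∈ T', ∀ j, (R a j ↔ ∃ x ∈ T', g x = g a ∧ R x j) := by
      intro a ha j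
      constructor
      · exact fun h => ⟨a, ha, rfl, h⟩
      · rintro ⟨x, hx, e, h⟩
        rw [← hinj hx ha e]
        exact h
    rintro (a | j) hx (b | k) hy
    · rw [mem_UJ_inl] at hx hy
      simpa using hadj a hx b hy
    · rw [mem_UJ_inl] at hx
      simpa using key a hx k
    · rw [mem_UJ_inl] at hy
      simpa using key b hy j
    · simp

theorem PS.mono {S : Set ℕ} {α : Type} {A : SimpleGraph α} {T T' : Set α} (h : PS G S A T)
    (hT : T' ⊆ T) : PS G S A T' :=
  h.comap id (fun _ hx => hT hx) (fun _ _ _ _ e => e) (fun _ _ _ _ => Iff.rfl)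

/-- The main use of `PS`: a graph covered by a part in `PS` and an independent set. -/
theorem PS.inW {S : Set ℕ} {γ : Type} [Finite γ] {K : SimpleGraph γ} {U T : Set γ}
    (h : PS G S K T) (hJ : ∀ x ∈ U, x ∉ T → ∀ y ∈ U, y ∉ T → ¬ K.Adj x y) {r : ℕ} (hr : r ∈ S) :
    InW G r K U := by
  classical
  refine (h γ (fun t j => K.Adj t j) r hr).comap
    (fun x => if x ∈ T then Sum.inl x else Sum.inr x) ?_ ?_ ?_
  · intro x _
    by_cases hx : x ∈ T
    · simp [hx]
    · simp [hx]
  · intro x _ y _ e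
    by_cases hx : x ∈ T <;> by_cases hy : y ∈ T
    · simpa [hx, hy] using e
    · simp [hx, hy] at e
    · simp [hx, hy] at e
    · simpa [hx, hy] using e
  · intro x hxU y hyU
    by_cases hx : x ∈ T <;> by_cases hy : y ∈ T
    · simp [hx, hy]
    · simp [hx, hy]
    · simp [hx, hy, K.adj_comm]
    · simp only [hx, hy, if_false]
      exact iff_of_false (hJ x hxU hx y hyU hy) (AJ_rr _ _)

/-- Conjugacy of embeddings is invariant under isomorphisms. -/
theorem Uniq.map {r : ℕ} {α δ : Type} {H : SimpleGraph α} {U : Set α} {K : SimpleGraph δ}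
    {U' : Set δ} (h : Uniq G r K U') (g : δ → α) (hg : g '' U' = U) (hinj : Set.InjOn g U')
    (hadj : ∀ x ∈ U', ∀ y ∈ U', (K.Adj x y ↔ H.Adj (g x) (g y))) : Uniq G r H U := by
  have hgU : ∀ x ∈ U', g x ∈ U := fun x hx => hg ▸ ⟨x, hx, rfl⟩
  intro W₁ f₁ W₂ f₂ h₁ h₂
  obtain ⟨φ, hφ, h3⟩ := h W₁ _ W₂ _ (h₁.comap g hgU hinj hadj) (h₂.comap g hgU hinj hadj)
  refine ⟨φ, hφ, ?_⟩
  intro x hx
  rw [← hg] at hx
  obtain ⟨y, hy, rfl⟩ := hx
  exact h3 y hy

/-- The hypothesis that there is a large set of private neighbours gives `AutPres`. -/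
theorem autPres_of_deg {α : Type} [Finite α] {H : SimpleGraph α} {U T : Set α}
    (hJ : ∀ x ∈ U, x ∉ T → ∀ y ∈ U, y ∉ T → ¬ H.Adj x y)
    (hd : ∀ t ∈ T, T.ncard < {j | j ∈ U ∧ j ∉ T ∧ H.Adj t j}.ncard) : AutPres H U T := by
  classical
  -- the degree in `U`
  have hdeg : ∀ σ : α → α, Set.BijOn σ U U →
      (∀ x ∈ U, ∀ y ∈ U, (H.Adj (σ x) (σ y) ↔ H.Adj x y)) → ∀ x ∈ U,
      {j | j ∈ U ∧ H.Adj (σ x) j}.ncard = {j | j ∈ U ∧ H.Adj x j}.ncard := by
    intro σ hσ hadj x hx
    have : {j | j ∈ U ∧ H.Adj (σ x) j} = σ '' {j | j ∈ U ∧ H.Adj x j} := by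
      ext y
      constructor
      · rintro ⟨hy, hxy⟩
        obtain ⟨z, hz, rfl⟩ := hσ.surjOn hy
        exact ⟨z, ⟨hz, (hadj x hx z hz).1 hxy⟩, rfl⟩
      · rintro ⟨z, ⟨hz, hxz⟩, rfl⟩
        exact ⟨hσ.mapsTo hz, (hadj x hx z hz).2 hxz⟩
    rw [this]
    exact (hσ.injOn.mono (fun z hz => hz.1)).ncard_image
  have hlarge : ∀ x ∈ U, (x ∈ T ↔ T.ncard < {j | j ∈ U ∧ H.Adj x j}.ncard) := by
    intro x hx
    constructor
    · intro hxT
      exact (hd x hxT).trans_le (Set.ncard_le_ncard (fun j hj => ⟨hj.1, hj.2.2⟩) (Set.toFinite _))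
    · intro h
      by_contra hxT
      have : {j | j ∈ U ∧ H.Adj x j} ⊆ T := by
        rintro j ⟨hj, hxj⟩
        by_contra hjT
        exact hJ x hx hxT j hj hjT hxj
      exact absurd (Set.ncard_le_ncard this (Set.toFinite _)) (by omega)
  intro σ hσ hadj x hx
  rw [hlarge x hx, hlarge (σ x) (hσ.mapsTo hx), hdeg σ hσ hadj x hx]


/-! ### gluing -/

/-- The conclusion of the gluing lemma: all adjacencies except that of `x` and `y` are right. -/
def Glued (G : SimpleGraph V) (r : ℕ) {α : Type} (H : SimpleGraph α) (U : Set α) (x y : α) :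
    Prop :=
  ∃ (W : Finset V) (f : α → V), Clq G W ∧ W.card = r ∧
    (∀ z ∈ insert x (insert y U), Full G (f z) W) ∧ Set.InjOn f (insert x (insert y U)) ∧
    ∀ u ∈ U, ∀ v ∈ insert x (insert y U), (G.Adj (f u) (f v) ↔ H.Adj u v)

theorem Glued.swap {r : ℕ} {α : Type} {H : SimpleGraph α} {U : Set α} {x y : α}
    (h : Glued G r H U x y) : Glued G r H U y x := by
  unfold Glued
  rw [Set.insert_comm]
  exact h

/-- An embedding over a base with a set `D` of dominating vertices, seen with `D` in the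
clique. -/
theorem EmbW.absorb {r : ℕ} {α : Type} [Finite α] {H : SimpleGraph α} {U D : Set α}
    {W : Finset V} {f : α → V} (h : EmbW G r H U W f) (hD : D ⊆ U)
    (hdom : ∀ z ∈ D, ∀ u ∈ U, u ≠ z → H.Adj z u) :
    ∃ W' : Finset V, EmbW G (r + D.ncard) H (U \ D) W' f ∧
      ∀ w, w ∈ W' ↔ w ∈ W ∨ ∃ z ∈ D, f z = w := by
  classical
  have hfin : (f '' D).Finite := (Set.toFinite D).image f
  have hm : ∀ w, w ∈ W ∪ hfin.toFinset ↔ w ∈ W ∨ ∃ z ∈ D, f z = w := by
    intro w
    rw [Finset.mem_union, Set.Finite.mem_toFinset]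
    rfl
  refine ⟨W ∪ hfin.toFinset, ⟨?_, ?_, ?_, h.inj.mono Set.sdiff_subset, ?_⟩, hm⟩
  · intro v hv w hw hvw
    rw [hm] at hv hw
    rcases hv with hv | ⟨z, hz, rfl⟩ <;> rcases hw with hw | ⟨z', hz', rfl⟩
    · exact h.clq v hv w hw hvw
    · exact (h.full z' (hD hz') v hv).symm
    · exact h.full z (hD hz) w hw
    · exact (h.adj z (hD hz) z' (hD hz')).2 (hdom z hz z' (hD hz') (fun e => hvw (by rw [e])))
  · rw [Finset.card_union_of_disjoint, h.card]
    · congr 1
      rw [← Set.ncard_eq_toFinset_card _ hfin]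
      exact (h.inj.mono hD).ncard_image
    · rw [Finset.disjoint_left]
      intro w hw hw2
      rw [Set.Finite.mem_toFinset] at hw2
      obtain ⟨z, hz, rfl⟩ := hw2
      exact G.irrefl (h.full z (hD hz) _ hw)
  · rintro x ⟨hx, hxD⟩ w hw
    rw [hm] at hw
    rcases hw with hw | ⟨z, hz, rfl⟩
    · exact h.full x hx w hw
    · exact ((h.adj z (hD hz) x hx).2 (hdom z hz x hx (fun e => hxD (e ▸ hz)))).symm
  · rintro x ⟨hx, -⟩ y ⟨hy, -⟩
    exact h.adj x hx y hy

/-- The gluing lemma. -/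
theorem gl {r : ℕ} {α : Type} [Finite α] {H : SimpleGraph α} {U D : Set α} {x y : α}
    (hxU : x ∉ U) (hyU : y ∉ U) (hxy : x ≠ y) (hD : D ⊆ U)
    (hdom : ∀ z ∈ D, ∀ u ∈ U, u ≠ z → H.Adj z u) (hyD : ∀ z ∈ D, H.Adj y z)
    (hu : Uniq G (r + D.ncard) H (U \ D)) (hdiff : ∃ u ∈ U, ¬ (H.Adj x u ↔ H.Adj y u))
    (hx : InW G r H (insert x U)) (hy : InW G r H (insert y U)) : Glued G r H U x y := by
  classical
  obtain ⟨W₁, f₁, h₁⟩ := hx
  obtain ⟨W₂, f₂, h₂⟩ := hy
  have hsx : U ⊆ insert x U := Set.subset_insert _ _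
  have hsy : U ⊆ insert y U := Set.subset_insert _ _
  obtain ⟨W₁', h₁', hW₁⟩ := (h₁.mono hsx).absorb hD hdom
  obtain ⟨W₂', h₂', hW₂⟩ := (h₂.mono hsy).absorb hD hdom
  obtain ⟨φ, hφ, hφ2⟩ := hu W₂' f₂ W₁' f₁ h₂' h₁'
  -- the image of `f₂ y` is adjacent to `W₁` and to the images of `D`
  have hyW : ∀ w ∈ W₁', G.Adj (φ (f₂ y)) w := by
    intro w hw
    have : w ∈ φ '' (W₂' : Set V) := by
      rw [hφ]
      exact hw
    obtain ⟨w', hw', rfl⟩ := this
    refine φ.map_adj_iff.2 ?_
    have hw'' : w' ∈ W₂' := hw'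
    rw [hW₂] at hw''
    rcases hw'' with hw'' | ⟨z, hz, rfl⟩
    · exact h₂.full y (Set.mem_insert _ _) w' hw''
    · exact (h₂.adj y (Set.mem_insert _ _) z (hsy (hD hz))).2 (hyD z hz)
  let f : α → V := fun z => if z = y then φ (f₂ y) else f₁ z
  have fy : f y = φ (f₂ y) := if_pos rfl
  have fn : ∀ z, z ≠ y → f z = f₁ z := fun z hz => if_neg hz
  have hUy : ∀ u ∈ U, u ≠ y := fun u hu e => hyU (e ▸ hu)
  -- adjacency to the image of `y`
  have hay : ∀ u ∈ U, (G.Adj (f₁ u) (φ (f₂ y)) ↔ H.Adj u y) := by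
    intro u hu
    by_cases huD : u ∈ D
    · exact iff_of_true (hyW (f₁ u) ((hW₁ _).2 (Or.inr ⟨u, huD, rfl⟩))).symm (hyD u huD).symm
    · rw [← hφ2 u ⟨hu, huD⟩, φ.map_adj_iff]
      exact h₂.adj u (hsy hu) y (Set.mem_insert _ _)
  have hax : ∀ u ∈ U, (G.Adj (f₁ u) (f₁ x) ↔ H.Adj u x) := fun u hu =>
    h₁.adj u (hsx hu) x (Set.mem_insert _ _)
  have hxyne : f₁ x ≠ φ (f₂ y) := by
    intro e
    obtain ⟨u, hu, hne⟩ := hdiff
    apply hne
    rw [H.adj_comm x u, H.adj_comm y u, ← hax u hu, ← hay u hu, e]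
  have hUyne : ∀ u ∈ U, f₁ u ≠ φ (f₂ y) := by
    intro u hu e
    by_cases huD : u ∈ D
    · have := hyW (f₁ u) ((hW₁ _).2 (Or.inr ⟨u, huD, rfl⟩))
      rw [e] at this
      exact G.irrefl this
    · rw [← hφ2 u ⟨hu, huD⟩] at e
      exact hUy u hu (h₂.inj (hsy hu) (Set.mem_insert _ _) (φ.injective e))
  have hmem : ∀ z ∈ insert x (insert y U), z = y ∨ (z ≠ y ∧ z ∈ insert x U) := by
    intro z hz
    by_cases hzy : z = y
    · exact Or.inl hzy
    · rcases hz with rfl | hz | hz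
      · exact Or.inr ⟨hzy, Set.mem_insert _ _⟩
      · exact absurd hz hzy
      · exact Or.inr ⟨hzy, hsx hz⟩
  have hne1 : ∀ z ∈ insert x U, f₁ z ≠ φ (f₂ y) := by
    rintro z (rfl | hz)
    · exact hxyne
    · exact hUyne z hz
  refine ⟨W₁, f, h₁.clq, h₁.card, ?_, ?_, ?_⟩
  · intro z hz
    rcases hmem z hz with rfl | ⟨hzy, hz⟩
    · rw [fy]
      exact fun w hw => hyW w ((hW₁ w).2 (Or.inl hw))
    · rw [fn z hzy]
      exact h₁.full z hz
  · intro z hz z' hz' e
    rcases hmem z hz with hz1 | ⟨hzy, hz1⟩ <;> rcases hmem z' hz' with hz2 | ⟨hzy', hz2⟩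
    · rw [hz1, hz2]
    · rw [hz1, fy, fn z' hzy'] at e
      exact absurd e.symm (hne1 z' hz2)
    · rw [hz2, fy, fn z hzy] at e
      exact absurd e (hne1 z hz1)
    · rw [fn z hzy, fn z' hzy'] at e
      exact h₁.inj hz1 hz2 e
  · intro u hu v hv
    rw [fn u (hUy u hu)]
    rcases hmem v hv with rfl | ⟨hvy, hv⟩
    · rw [fy]
      exact hay u hu
    · rw [fn v hvy]
      exact h₁.adj u (hsx hu) v hv

/-! ### the double gadget -/

/-- Two copies of `H`; the vertices `p, q` of the first copy also play `c, d` in the second. -/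
def gad0 {α : Type} (H : SimpleGraph α) (p q c d : α) (C : α → α → Prop) :
    SimpleGraph (α ⊕ α) where
  Adj x y := match x, y with
    | Sum.inl z, Sum.inl z' => H.Adj z z'
    | Sum.inr z, Sum.inr z' => H.Adj z z'
    | Sum.inl z, Sum.inr z' =>
      (z = p ∧ H.Adj c z') ∨ (z = q ∧ H.Adj d z') ∨ (z ≠ p ∧ z ≠ q ∧ C z z')
    | Sum.inr z', Sum.inl z =>
      (z = p ∧ H.Adj c z') ∨ (z = q ∧ H.Adj d z') ∨ (z ≠ p ∧ z ≠ q ∧ C z z')
  symm := ⟨by
    rintro (z | z) (z' | z') h
    · exact SimpleGraph.Adj.symm h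
    · exact h
    · exact h
    · exact SimpleGraph.Adj.symm h⟩
  loopless := ⟨by
    rintro (z | z) h
    · exact H.irrefl h
    · exact H.irrefl h⟩

/-- The gadget graph: two copies of `H`, with `p, q` of the first copy playing also `c, d` of the
second copy, cross relation `C`, and pins attached by `E`. -/
def gad {α π : Type} (H : SimpleGraph α) (p q c d : α) (C : α → α → Prop)
    (E : α ⊕ α → π → Prop) : SimpleGraph ((α ⊕ α) ⊕ π) := AJ (gad0 H p q c d C) E

/-- The base of the gadget: the first copy without `p, q`, the second without `c, d`, and the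
pins. -/
def gU {α : Type} (π : Type) (U : Set α) (p q c d : α) : Set ((α ⊕ α) ⊕ π) :=
  {x | (∀ z, x = Sum.inl (Sum.inl z) → z ∈ U ∧ z ≠ p ∧ z ≠ q) ∧
    ∀ z, x = Sum.inl (Sum.inr z) → z ∈ U ∧ z ≠ c ∧ z ≠ d}

section gad
variable {α π : Type} {H : SimpleGraph α} {p q c d : α} {C : α → α → Prop}
  {E : α ⊕ α → π → Prop} {U : Set α}

@[simp] theorem gad_11 (z z' : α) :
    (gad H p q c d C E).Adj (Sum.inl (Sum.inl z)) (Sum.inl (Sum.inl z')) ↔ H.Adj z z' := Iff.rfl
@[simp] theorem gad_22 (z z' : α) :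
    (gad H p q c d C E).Adj (Sum.inl (Sum.inr z)) (Sum.inl (Sum.inr z')) ↔ H.Adj z z' := Iff.rfl
@[simp] theorem gad_12 (z z' : α) :
    (gad H p q c d C E).Adj (Sum.inl (Sum.inl z)) (Sum.inl (Sum.inr z')) ↔
      (z = p ∧ H.Adj c z') ∨ (z = q ∧ H.Adj d z') ∨ (z ≠ p ∧ z ≠ q ∧ C z z') := Iff.rfl
@[simp] theorem gad_21 (z z' : α) :
    (gad H p q c d C E).Adj (Sum.inl (Sum.inr z')) (Sum.inl (Sum.inl z)) ↔
      (z = p ∧ H.Adj c z') ∨ (z = q ∧ H.Adj d z') ∨ (z ≠ p ∧ z ≠ q ∧ C z z') := Iff.rfl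
@[simp] theorem gad_1p (x : α ⊕ α) (i : π) :
    (gad H p q c d C E).Adj (Sum.inl x) (Sum.inr i) ↔ E x i := Iff.rfl
@[simp] theorem gad_p1 (x : α ⊕ α) (i : π) :
    (gad H p q c d C E).Adj (Sum.inr i) (Sum.inl x) ↔ E x i := Iff.rfl
@[simp] theorem gad_pp (i j : π) :
    ¬ (gad H p q c d C E).Adj (Sum.inr i) (Sum.inr j) := fun h => h

@[simp] theorem mem_gU_1 {z : α} :
    (Sum.inl (Sum.inl z) : (α ⊕ α) ⊕ π) ∈ gU π U p q c d ↔ z ∈ U ∧ z ≠ p ∧ z ≠ q := by
  simp [gU]
@[simp] theorem mem_gU_2 {z : α} :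
    (Sum.inl (Sum.inr z) : (α ⊕ α) ⊕ π) ∈ gU π U p q c d ↔ z ∈ U ∧ z ≠ c ∧ z ≠ d := by
  simp [gU]
@[simp] theorem mem_gU_p {i : π} : (Sum.inr i : (α ⊕ α) ⊕ π) ∈ gU π U p q c d := by
  simp [gU]

/-- The gadget lemma. -/
theorem t1 [Finite α] [Finite π] {r : ℕ} {D : Set ((α ⊕ α) ⊕ π)} (hpq : p ≠ q)
    (hnpq : ¬ H.Adj p q) (hcd : H.Adj c d)
    (hD : D ⊆ gU π U p q c d)
    (hdom : ∀ z ∈ D, ∀ u ∈ gU π U p q c d, u ≠ z → (gad H p q c d C E).Adj z u)
    (hyD : (∀ z ∈ D, (gad H p q c d C E).Adj (Sum.inl (Sum.inl p)) z) ∨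
      ∀ z ∈ D, (gad H p q c d C E).Adj (Sum.inl (Sum.inl q)) z)
    (hu : Uniq G (r + D.ncard) (gad H p q c d C E) (gU π U p q c d \ D))
    (hdiff : ∃ u ∈ gU π U p q c d, ¬ ((gad H p q c d C E).Adj (Sum.inl (Sum.inl p)) u ↔
      (gad H p q c d C E).Adj (Sum.inl (Sum.inl q)) u))
    (hx : InW G r (gad H p q c d C E) (insert (Sum.inl (Sum.inl p)) (gU π U p q c d)))
    (hy : InW G r (gad H p q c d C E) (insert (Sum.inl (Sum.inl q)) (gU π U p q c d))) :
    InW G r H U := by
  classical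
  have hpU : (Sum.inl (Sum.inl p) : (α ⊕ α) ⊕ π) ∉ gU π U p q c d := by simp
  have hqU : (Sum.inl (Sum.inl q) : (α ⊕ α) ⊕ π) ∉ gU π U p q c d := by simp
  have hpqne : (Sum.inl (Sum.inl p) : (α ⊕ α) ⊕ π) ≠ Sum.inl (Sum.inl q) := by simpa using hpq
  have hgl : Glued G r (gad H p q c d C E) (gU π U p q c d) (Sum.inl (Sum.inl p))
      (Sum.inl (Sum.inl q)) := by
    rcases hyD with h | h
    · refine (gl hqU hpU hpqne.symm hD hdom h hu ?_ hy hx).swap
      obtain ⟨u, hu1, hu2⟩ := hdiff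
      exact ⟨u, hu1, fun e => hu2 e.symm⟩
    · exact gl hpU hqU hpqne hD hdom h hu hdiff hx hy
  obtain ⟨W, f, hW, hWc, hfull, hinj, hadj⟩ := hgl
  by_cases hpqf : G.Adj (f (Sum.inl (Sum.inl p))) (f (Sum.inl (Sum.inl q)))
  · -- the second copy
    let g : α → (α ⊕ α) ⊕ π := fun z =>
      if z = c then Sum.inl (Sum.inl p) else if z = d then Sum.inl (Sum.inl q)
        else Sum.inl (Sum.inr z)
    have gc : g c = Sum.inl (Sum.inl p) := if_pos rfl
    have gd : g d = Sum.inl (Sum.inl q) := by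
      show (if d = c then (Sum.inl (Sum.inl p) : (α ⊕ α) ⊕ π) else if d = d then
        Sum.inl (Sum.inl q) else Sum.inl (Sum.inr d)) = _
      rw [if_neg hcd.ne.symm, if_pos rfl]
    have gn : ∀ z, z ≠ c → z ≠ d → g z = Sum.inl (Sum.inr z) := by
      intro z h1 h2
      show (if z = c then (Sum.inl (Sum.inl p) : (α ⊕ α) ⊕ π) else if z = d then
        Sum.inl (Sum.inl q) else Sum.inl (Sum.inr z)) = _
      rw [if_neg h1, if_neg h2]
    have hmem : ∀ z ∈ U, g z ∈ insert (Sum.inl (Sum.inl p) : (α ⊕ α) ⊕ π)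
        (insert (Sum.inl (Sum.inl q)) (gU π U p q c d)) := by
      intro z hz
      by_cases h1 : z = c
      · subst h1
        rw [gc]
        exact Set.mem_insert _ _
      · by_cases h2 : z = d
        · subst h2
          rw [gd]
          exact Set.mem_insert_of_mem _ (Set.mem_insert _ _)
        · rw [gn z h1 h2]
          refine Set.mem_insert_of_mem _ (Set.mem_insert_of_mem _ ?_)
          simp [hz, h1, h2]
    have ginj : Function.Injective g := by
      intro z z' e
      by_cases h1 : z = c <;> by_cases h1' : z' = c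
      · rw [h1, h1']
      · exfalso
        rw [h1, gc] at e
        by_cases h2' : z' = d
        · rw [h2', gd] at e
          exact hpqne e
        · rw [gn z' h1' h2'] at e
          simp at e
      · exfalso
        rw [h1', gc] at e
        by_cases h2 : z = d
        · rw [h2, gd] at e
          exact hpqne e.symm
        · rw [gn z h1 h2] at e
          simp at e
      · by_cases h2 : z = d <;> by_cases h2' : z' = d
        · rw [h2, h2']
        · exfalso
          rw [h2, gd, gn z' h1' h2'] at e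
          simp at e
        · exfalso
          rw [h2', gd, gn z h1 h2] at e
          simp at e
        · rw [gn z h1 h2, gn z' h1' h2'] at e
          simpa using e
    have hgU : ∀ z ∈ U, z ≠ c → z ≠ d → (Sum.inl (Sum.inr z) : (α ⊕ α) ⊕ π) ∈
        gU π U p q c d := by
      intro z hz h1 h2
      simp [hz, h1, h2]
    refine ⟨W, fun z => f (g z), hW, hWc, fun z hz => hfull _ (hmem z hz),
      fun z hz z' hz' e => ginj (hinj (hmem z hz) (hmem z' hz') e), ?_⟩
    -- adjacency of a point of the second copy with any point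
    have key : ∀ z ∈ U, z ≠ c → z ≠ d → ∀ z' ∈ U,
        (G.Adj (f (g z)) (f (g z')) ↔ H.Adj z z') := by
      intro z hz h1 h2 z' hz'
      have := hadj (g z) (by rw [gn z h1 h2]; exact hgU z hz h1 h2) (g z') (hmem z' hz')
      rw [this, gn z h1 h2]
      by_cases h1' : z' = c
      · subst h1'
        rw [gc, gad_21]
        simp [hpq, H.adj_comm z' z]
      · by_cases h2' : z' = d
        · subst h2'
          rw [gd, gad_21]
          simp [hpq.symm, H.adj_comm z' z]
        · rw [gn z' h1' h2', gad_22]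
    intro z hz z' hz'
    by_cases h1 : z = c
    · by_cases h1' : z' = c
      · rw [h1, h1']
        simp
      · by_cases h2' : z' = d
        · subst h1
          subst h2'
          show G.Adj (f (g z)) (f (g z')) ↔ _
          rw [gc, gd]
          exact iff_of_true hpqf hcd
        · rw [G.adj_comm, H.adj_comm]
          exact key z' hz' h1' h2' z hz
    · by_cases h2 : z = d
      · by_cases h1' : z' = c
        · subst h1'
          subst h2
          show G.Adj (f (g z)) (f (g z')) ↔ _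
          rw [gc, gd]
          exact iff_of_true hpqf.symm hcd.symm
        · by_cases h2' : z' = d
          · rw [h2, h2']
            simp
          · rw [G.adj_comm, H.adj_comm]
            exact key z' hz' h1' h2' z hz
      · exact key z hz h1 h2 z' hz'
  · -- the first copy
    have hmem : ∀ z ∈ U, (Sum.inl (Sum.inl z) : (α ⊕ α) ⊕ π) ∈
        insert (Sum.inl (Sum.inl p) : (α ⊕ α) ⊕ π)
        (insert (Sum.inl (Sum.inl q)) (gU π U p q c d)) := by
      intro z hz
      by_cases h1 : z = p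
      · rw [h1]
        exact Set.mem_insert _ _
      · by_cases h2 : z = q
        · rw [h2]
          exact Set.mem_insert_of_mem _ (Set.mem_insert _ _)
        · refine Set.mem_insert_of_mem _ (Set.mem_insert_of_mem _ ?_)
          simp [hz, h1, h2]
    refine ⟨W, fun z => f (Sum.inl (Sum.inl z)), hW, hWc, fun z hz => hfull _ (hmem z hz), ?_, ?_⟩
    · intro z hz z' hz' e
      have := hinj (hmem z hz) (hmem z' hz') e
      simpa using this
    · have key : ∀ z ∈ U, z ≠ p → z ≠ q → ∀ z' ∈ U,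
          (G.Adj (f (Sum.inl (Sum.inl z))) (f (Sum.inl (Sum.inl z'))) ↔ H.Adj z z') := by
        intro z hz h1 h2 z' hz'
        exact hadj _ (by simp [hz, h1, h2]) _ (hmem z' hz')
      intro z hz z' hz'
      by_cases h1 : z = p
      · by_cases h1' : z' = p
        · rw [h1, h1']
          simp
        · by_cases h2' : z' = q
          · rw [h1, h2']
            exact iff_of_false hpqf hnpq
          · rw [G.adj_comm, H.adj_comm]
            exact key z' hz' h1' h2' z hz
      · by_cases h2 : z = q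
        · by_cases h1' : z' = p
          · rw [h2, h1']
            exact iff_of_false (fun e => hpqf e.symm) (fun e => hnpq e.symm)
          · by_cases h2' : z' = q
            · rw [h2, h2']
              simp
            · rw [G.adj_comm, H.adj_comm]
              exact key z' hz' h1' h2' z hz
        · exact key z hz h1 h2 z' hz'

end gad

end Un
end SetHom
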