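import Pool.Agent.Helper59.U.P1
import Pool.Agent.Helper53.U.I1
import Pool.Agent.Helper38.U.I2

/-!
# MP_506470_co : Lemma KI, two independent points and paths
-/

namespace SetHom
namespace Un

variable {V : Type} {G : SimpleGraph V}

theorem ki_ind (hW : WG G) (hC : CliqueIn G {0}) : ∀ (n m : ℕ) (α : Type) [Finite α]
    (H : SimpleGraph α) (U C : Set α) (a b : α), KI H U C a b → s01 H U C a b = n →
      s11 H U C a b = m → InW G 0 H U := by
  intro n
  induction n using Nat.strong_induction_on with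
  | _ n ihn =>
    intro m
    induction m using Nat.strong_induction_on with
    | _ m ihm =>
      intro α _ H U C a b h h1 h2
      by_cases h11 : ∃ d ∈ U, d ∉ C ∧ d ≠ a ∧ d ≠ b ∧ H.Adj a d ∧ H.Adj b d
      · obtain ⟨d, hd, hdC, hda, hdb, had, hbd⟩ := h11
        refine ki_S hW hC h hd hdC hda hdb had hbd ?_
        intro α' _ H' U' C' a' b' h' hle hlt
        rcases Nat.lt_or_ge (s01 H' U' C' a' b') n with h3 | h3
        · exact ihn _ h3 _ α' H' U' C' a' b' h' rfl rfl
        · exact ihm _ (h2 ▸ hlt) α' H' U' C' a' b' h' (le_antisymm (h1 ▸ hle) h3) rfl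
      by_cases h01 : ∃ z ∈ U, z ∉ C ∧ z ≠ a ∧ z ≠ b ∧ ¬ H.Adj a z ∧ H.Adj b z
      · obtain ⟨z, hz, hzC, hza, hzb, haz, hbz⟩ := h01
        refine ki_T hW hC h hz hzC hza hzb haz hbz ?_
        intro α' _ H' U' C' a' b' h' hlt
        exact ihn _ (h1 ▸ hlt) _ α' H' U' C' a' b' h' rfl rfl
      have hbJ : ∀ j ∈ U, j ∉ C → j ≠ a → j ≠ b → ¬ H.Adj b j := by
        intro j hj hjC hja hjb hbj
        by_cases haj : H.Adj a j
        · exact h11 ⟨j, hj, hjC, hja, hjb, haj, hbj⟩
        · exact h01 ⟨j, hj, hjC, hja, hjb, haj, hbj⟩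
      have hT : PS G {0} H (insert a C) := by
        apply hC α H
        rintro x (rfl | hx) y (rfl | hy) hxy
        · exact absurd rfl hxy
        · exact (h.ca y hy).symm
        · exact h.ca x hx
        · exact h.cc x hx y hy hxy
      refine hT.inW ?_ (by simp : (0 : ℕ) ∈ ({0} : Set ℕ))
      intro x hx hxT y hy hyT hxy
      have hxa : x ≠ a := fun e => hxT (Or.inl e)
      have hya : y ≠ a := fun e => hyT (Or.inl e)
      have hxC : x ∉ C := fun e => hxT (Or.inr e)
      have hyC : y ∉ C := fun e => hyT (Or.inr e)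
      by_cases hxb : x = b
      · subst hxb
        exact hbJ y hy hyC hya hxy.ne.symm hxy
      · by_cases hyb : y = b
        · subst hyb
          exact hbJ x hx hxC hxa hxb hxy.symm
        · exact h.ind x hx hxC hxa hxb y hy hyC hya hyb hxy

theorem ps_unit (hC : CliqueIn G {0}) : PS G {0} (⊥ : SimpleGraph Unit) Set.univ :=
  hC Unit ⊥ Set.univ (fun x _ y _ hxy => absurd (Subsingleton.elim x y) hxy)

theorem ps_bool (hW : WG G) (hC : CliqueIn G {0}) :
    PS G {0} (⊥ : SimpleGraph Bool) Set.univ := by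
  intro β _ R r hr
  have hr0 : r = 0 := hr
  subst hr0
  refine ki_ind hW hC _ _ (Bool ⊕ β) (AJ ⊥ R) (UJ β Set.univ) ∅ (Sum.inl true) (Sum.inl false)
    ⟨Set.empty_subset _, by simp, by simp, by simp, by simp, by simp, by simp, ?_, ?_, ?_, ?_, ?_⟩
    rfl rfl
  · intro x hx
    exact absurd hx (Set.notMem_empty x)
  · intro x hx
    exact absurd hx (Set.notMem_empty x)
  · intro x hx
    exact absurd hx (Set.notMem_empty x)
  · rintro (x | x) _ _ h1 h2 (y | y) _ _ h3 h4
    · cases x <;> simp at h1 h2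
    · cases x <;> simp at h1 h2
    · cases y <;> simp at h3 h4
    · exact AJ_rr _ _
  · intro x hx
    exact absurd hx (Set.notMem_empty x)

theorem inInd2 (hW : WG G) (hC : CliqueIn G {0}) : InInd (fun _ A T => PS G {0} A T) 2 := by
  classical
  intro α A T hT hc hind
  have hcase : T.ncard = 0 ∨ T.ncard = 1 ∨ T.ncard = 2 := by omega
  rcases hcase with h | h | h
  · rw [Set.ncard_eq_zero hT] at h
    subst h
    exact (ps_unit hC).comap (fun _ => ()) (fun _ _ => trivial)
      (fun x hx => absurd hx (Set.notMem_empty x)) (fun x hx => absurd hx (Set.notMem_empty x))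
  · obtain ⟨a, rfl⟩ := Set.ncard_eq_one.1 h
    refine (ps_unit hC).comap (fun _ => ()) (fun _ _ => trivial) (Set.injOn_singleton _ _) ?_
    intro x hx y hy
    exact iff_of_false (hind x hx y hy) (by simp)
  · obtain ⟨a, b, hab, rfl⟩ := Set.ncard_eq_two.1 h
    refine (ps_bool hW hC).comap (fun x => decide (x = a)) (fun _ _ => trivial) ?_ ?_
    · rintro x (rfl | rfl) y (rfl | rfl) e
      · rfl
      · simp [hab.symm] at e
      · simp [hab.symm] at e
      · rfl
    · intro x hx y hy
      exact iff_of_false (hind x hx y hy) (by simp)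

theorem p3c_all (hW : WG G) (hC : CliqueIn G {0}) : P3C G 0 (fun _ _ _ => True) := by
  have base : P3C G 0 (fun x y z => ¬ x → ¬ y ∧ ¬ z) := by
    intro α _ H U x a b ht hxa hxb hab
    refine ki_ind hW hC _ _ α H U {x} a b
      ⟨by simpa using ht.hx, ht.ha, ht.hb, by simpa using ht.xa.symm, by simpa using ht.xb.symm,
        ht.ab, hab, ?_, ?_, ?_, ?_, ?_⟩ rfl rfl
    · rintro c rfl d rfl hcd
      exact absurd rfl hcd
    · rintro c rfl
      exact hxa
    · rintro c rfl
      exact hxb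
    · intro i hi h1 h2 h3 j hj h4 h5 h6
      exact ht.ind i hi h1 h2 h3 j hj h4 h5 h6
    · rintro c rfl j hj h1 h2 h3 h4
      by_contra h5
      have := ht.st j hj h1 h2 h3 h5
      rcases h4 with h4 | h4
      · exact this.1 h4
      · exact this.2 h4
  have s1 : P3C G 0 (fun x y z => ¬ x → ¬ y) := by
    refine p3_step hW hC _ (fun x y z => ¬ x → ¬ y ∧ ¬ z) (fun x _ z => x ∧ z) ?_ ?_ ?_ ?_ ?_ base
    · intro x y z h hx
      exact ⟨h hx, fun e => hx e.1⟩
    · intro x y z _ h
      exact absurd trivial h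
    · intro h
      exact absurd trivial h
    · intro h
      exact absurd trivial h
    · intro _
      exact ⟨id, id⟩
  have s2 : P3C G 0 (fun x _ z => ¬ x → ¬ z) := s1.swap
  refine p3_step hW hC _ (fun x _ z => ¬ x → ¬ z) (fun x _ z => x ∧ z) ?_ ?_ ?_ ?_ ?_ s2
  · intro x y z _ hx e
    exact hx e.1
  · intro x y z _ h
    exact absurd trivial h
  · intro h
    exact absurd trivial h
  · intro h
    exact absurd trivial h
  · intro _
    exact id

theorem inP3_zero (hW : WG G) (hC : CliqueIn G {0}) : InP3 (fun _ A T => PS G {0} A T) := by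
  classical
  intro α A x a b hxa hxb hab hnab
  let A0 : SimpleGraph (Fin 3) := SimpleGraph.fromEdgeSet {s(0, 1), s(0, 2)}
  have h01 : A0.Adj 0 1 := by simp [A0]
  have h02 : A0.Adj 0 2 := by simp [A0]
  have h12 : ¬ A0.Adj 1 2 := by simp [A0]
  have key : PS G {0} A0 Set.univ := by
    intro β _ R r hr
    have hr0 : r = 0 := hr
    subst hr0
    refine p3c_all hW hC (Fin 3 ⊕ β) (AJ A0 R) (UJ β Set.univ) (Sum.inl 0) (Sum.inl 1)
      (Sum.inl 2) ⟨by simp, by simp, by simp, by simp, by simp, by simp, ?_, ?_⟩ h01 h02 h12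
    · rintro (i | i) _ h1 h2 h3 (j | j) _ h4 h5 h6
      · fin_cases i <;> simp at h1 h2 h3
      · fin_cases i <;> simp at h1 h2 h3
      · fin_cases j <;> simp at h4 h5 h6
      · exact AJ_rr _ _
    · intro _ _ _ _ _
      trivial
  refine key.comap (fun y => if y = x then 0 else if y = a then 1 else 2)
    (fun _ _ => trivial) ?_ ?_
  · rintro y (rfl | rfl | rfl) z (rfl | rfl | rfl) e
    all_goals simp [hxa.ne, hxa.ne.symm, hxb.ne, hxb.ne.symm, hab, hab.symm] at e ⊢
  · rintro y (rfl | rfl | rfl) z (rfl | rfl | rfl)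
    · simp
    · simp [hxa.ne.symm, hxa, h01]
    · simp [hxb.ne.symm, hab.symm, hxb, h02]
    · simp [hxa.ne.symm, hxa.symm, h01.symm]
    · simp
    · simp [hxa.ne.symm, hxb.ne.symm, hab.symm, hnab, h12]
    · simp [hxb.ne.symm, hab.symm, hxb.symm, h02.symm]
    · simp only [hxa.ne.symm, hxb.ne.symm, hab.symm, if_false, if_true]
      exact iff_of_false (fun e => hnab e.symm) (fun e => h12 e.symm)
    · simp

theorem ki_all (hW : WG G) (hC : CliqueIn G {0}) :
    (∀ (α : Type) [Finite α] (H : SimpleGraph α) (U C : Set α) (a b : α), KI H U C a b →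
      InW G 0 H U) ∧ InInd (fun _ A T => PS G {0} A T) 2 ∧ InP3 (fun _ A T => PS G {0} A T) :=
  ⟨fun α _ H U C a b h => ki_ind hW hC _ _ α H U C a b h rfl rfl, inInd2 hW hC,
    inP3_zero hW hC⟩

end Un
end SetHom
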